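import Mathlib

/-!
# The determinant of an R-disjoint graph factors along its flower decomposition

A graph is R-disjoint if it has an odd cycle, each odd cycle has a nonempty reach set, and the
reach sets of distinct odd cycles are disjoint. We show that the determinant of the adjacency
matrix of such a graph is the product of the determinants of the subgraphs induced by the reach
sets and by the set of the remaining vertices.
-/

open Finset Classical

set_option linter.unusedSectionVars false

namespace Pool.Agent.Results.MP_079569_co.FlowerDet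

section Part1

section Defs
variable {V : Type*}

/-- The list of the edges of a sequence of vertices. -/
def edgeList : List V → List (Sym2 V)
  | [] => []
  | [_] => []
  | a :: b :: l => s(a, b) :: edgeList (b :: l)

@[simp] theorem edgeList_nil : edgeList ([] : List V) = [] := rfl
@[simp] theorem edgeList_single (a : V) : edgeList [a] = [] := rfl
@[simp] theorem edgeList_cons_cons (a b : V) (l : List V) :
    edgeList (a :: b :: l) = s(a, b) :: edgeList (b :: l) := rfl

/-- The cyclic sequence `a :: l` of distinct vertices, of odd length at least three, with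
consecutive vertices adjacent in `G`, runs through an odd cycle with edge set `C`. -/
def Runs (G : SimpleGraph V) (C : Finset (Sym2 V)) (a : V) (l : List V) : Prop :=
  (a :: l).Nodup ∧ 3 ≤ (a :: l).length ∧ Odd (a :: l).length ∧
    List.IsChain G.Adj (a :: (l ++ [a])) ∧ C = (edgeList (a :: (l ++ [a]))).toFinset

/-- `C` is (the edge set of) an odd cycle of `G`. -/
def IsOddCycle (G : SimpleGraph V) (C : Finset (Sym2 V)) : Prop := ∃ a l, Runs G C a l

/-- `M` is a matching of `G`. -/
def IsMatching (G : SimpleGraph V) (M : Finset (Sym2 V)) : Prop :=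
  (∀ e ∈ M, e ∈ G.edgeSet) ∧ ∀ e ∈ M, ∀ e' ∈ M, ∀ v, v ∈ e → v ∈ e' → e = e'

/-- `M` is a maximum matching of `G`. -/
def IsMaximum (G : SimpleGraph V) (M : Finset (Sym2 V)) : Prop :=
  IsMatching G M ∧ ∀ M', IsMatching G M' → M'.card ≤ M.card

end Defs

variable {V : Type*} [Fintype V]

/-- The vertices covered by the edges in `C`. -/
noncomputable def vertexSet (C : Finset (Sym2 V)) : Finset V := univ.filter fun v => ∃ e ∈ C, v ∈ e

theorem mem_vertexSet {C : Finset (Sym2 V)} {v : V} : v ∈ vertexSet C ↔ ∃ e ∈ C, v ∈ e := by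
  simp [vertexSet]

theorem card_vertexSet {G : SimpleGraph V} {M : Finset (Sym2 V)} (h : IsMatching G M) :
    (vertexSet M).card = 2 * M.card := by
  have e : vertexSet M = M.biUnion fun e => e.toFinset := by
    ext v
    rw [mem_vertexSet, mem_biUnion]
    simp
  rw [e, card_biUnion]
  · rw [sum_congr rfl (g := fun _ => 2)]
    · simp [mul_comm]
    · intro x hx
      apply Sym2.card_toFinset_of_not_isDiag
      exact G.not_isDiag_of_mem_edgeSet (h.1 x hx)
  · intro x hx y hy hxy
    change Disjoint x.toFinset y.toFinset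
    rw [Finset.disjoint_left]
    intro v hv hv'
    rw [Sym2.mem_toFinset] at hv hv'
    exact hxy (h.2 x hx y hy v hv hv')

/-- An involution `f` moving each vertex to itself or to a neighbour. -/
def Mt (G : SimpleGraph V) (f : V → V) : Prop :=
  (∀ v, f (f v) = v) ∧ ∀ v, f v ≠ v → G.Adj v (f v)

theorem Mt.inj {G : SimpleGraph V} {f : V → V} (h : Mt G f) : Function.Injective f := by
  intro a b hab
  rw [← h.1 a, hab, h.1 b]

/-- the vertices not covered -/
noncomputable def fixedPts (f : V → V) : Finset V := univ.filter fun v => f v = v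

@[simp] theorem mem_fixedPts {f : V → V} {v : V} : v ∈ fixedPts f ↔ f v = v := by simp [fixedPts]

/-- the set of edges of the matching given by an involution -/
noncomputable def edgesF (f : V → V) : Finset (Sym2 V) :=
  (univ.filter fun v => f v ≠ v).image fun v => s(v, f v)

theorem mem_edgesF {f : V → V} {a b : V} (hf : ∀ v, f (f v) = v) :
    s(a, b) ∈ edgesF f ↔ a ≠ b ∧ f a = b := by
  unfold edgesF
  rw [mem_image]
  constructor
  · rintro ⟨v, hv, h⟩
    rw [mem_filter] at hv
    rcases Sym2.eq_iff.mp h with ⟨rfl, rfl⟩ | ⟨rfl, rfl⟩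
    · exact ⟨fun h => hv.2 h.symm, rfl⟩
    · exact ⟨fun h => hv.2 h, hf _⟩
  · rintro ⟨h1, rfl⟩
    exact ⟨a, by simp [Ne.symm h1], rfl⟩

theorem isMatching_edgesF {G : SimpleGraph V} {f : V → V} (hf : Mt G f) :
    IsMatching G (edgesF f) := by
  constructor
  · intro e he
    induction e with
    | _ a b =>
      rw [mem_edgesF hf.1] at he
      obtain ⟨h1, rfl⟩ := he
      exact hf.2 a (Ne.symm h1)
  · intro e he e' he' v hv hv'
    induction e with
    | _ a b =>
      induction e' with
      | _ c d =>
        rw [mem_edgesF hf.1] at he he'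
        obtain ⟨h1, rfl⟩ := he
        obtain ⟨h2, rfl⟩ := he'
        rw [Sym2.mem_iff] at hv hv'
        have ha := hf.1 a
        have hc := hf.1 c
        rcases hv with rfl | rfl <;> rcases hv' with h | h
        · rw [h]
        · rw [h, hc, Sym2.eq_swap]
        · rw [← h, ha, Sym2.eq_swap]
        · rw [hf.inj h]

theorem exists_partner {G : SimpleGraph V} {M : Finset (Sym2 V)} (h : IsMatching G M) :
    ∃ f, Mt G f ∧ M = edgesF f := by
  have key : ∀ v, ∃ w, (s(v, w) ∈ M ∧ v ≠ w) ∨ (w = v ∧ ∀ e ∈ M, v ∉ e) := by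
    intro v
    by_cases hv : ∃ e ∈ M, v ∈ e
    · obtain ⟨e, he, hve⟩ := hv
      obtain ⟨w, rfl⟩ := hve
      refine ⟨w, Or.inl ⟨he, ?_⟩⟩
      rintro rfl
      exact G.not_isDiag_of_mem_edgeSet (h.1 _ he) rfl
    · push Not at hv
      exact ⟨v, Or.inr ⟨rfl, hv⟩⟩
  choose f hf using key
  have hinv : ∀ v, f (f v) = v := by
    intro v
    rcases hf v with ⟨h1, h2⟩ | ⟨h1, h2⟩
    · rcases hf (f v) with ⟨h3, h4⟩ | ⟨h3, h4⟩
      · have := h.2 _ h1 _ h3 (f v) (by simp) (by simp)
        rcases Sym2.eq_iff.mp this with ⟨h5, _⟩ | ⟨h5, _⟩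
        · exact absurd h5 h2
        · exact h5.symm
      · exact absurd (by simp) (h4 _ h1)
    · rw [h1, h1]
  have hM : Mt G f := by
    refine ⟨hinv, ?_⟩
    intro v hv
    rcases hf v with ⟨h1, h2⟩ | ⟨h1, h2⟩
    · exact h.1 _ h1
    · exact absurd h1 hv
  refine ⟨f, hM, ?_⟩
  ext e
  induction e with
  | _ a b =>
    rw [mem_edgesF hinv]
    constructor
    · intro he
      have hab : a ≠ b := by
        rintro rfl
        exact G.not_isDiag_of_mem_edgeSet (h.1 _ he) rfl
      refine ⟨hab, ?_⟩
      rcases hf a with ⟨h1, h2⟩ | ⟨h1, h2⟩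
      · have := h.2 _ h1 _ he a (by simp) (by simp)
        rcases Sym2.eq_iff.mp this with ⟨_, h5⟩ | ⟨h5, _⟩
        · exact h5
        · exact absurd h5 hab
      · exact absurd (by simp) (h2 _ he)
    · rintro ⟨h1, rfl⟩
      rcases hf a with ⟨h3, h4⟩ | ⟨h3, h4⟩
      · exact h3
      · exact absurd h3.symm h1

theorem vertexSet_edgesF {f : V → V} (hf : ∀ v, f (f v) = v) (v : V) :
    v ∈ vertexSet (edgesF f) ↔ f v ≠ v := by
  rw [mem_vertexSet]
  constructor
  · rintro ⟨e, he, hv⟩
    induction e with
    | _ a b =>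
      rw [mem_edgesF hf] at he
      obtain ⟨h1, rfl⟩ := he
      rw [Sym2.mem_iff] at hv
      rcases hv with rfl | rfl
      · exact Ne.symm h1
      · rw [hf]; exact h1
  · intro h
    exact ⟨s(v, f v), (mem_edgesF hf).mpr ⟨Ne.symm h, rfl⟩, by simp⟩

theorem card_fixedPts {G : SimpleGraph V} {f : V → V} (hf : Mt G f) :
    (fixedPts f).card + 2 * (edgesF f).card = Fintype.card V := by
  rw [← card_vertexSet (isMatching_edgesF hf)]
  have : vertexSet (edgesF f) = (fixedPts f)ᶜ := by
    ext v
    rw [vertexSet_edgesF hf.1, mem_compl, mem_fixedPts]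
  rw [this, card_compl]
  have := card_le_univ (fixedPts f)
  omega

/-- a maximum matching, as an involution -/
def MaxMt (G : SimpleGraph V) (f : V → V) : Prop :=
  Mt G f ∧ ∀ g, Mt G g → (fixedPts f).card ≤ (fixedPts g).card

theorem maxMt_iff {G : SimpleGraph V} {f : V → V} (hf : Mt G f) :
    MaxMt G f ↔ IsMaximum G (edgesF f) := by
  constructor
  · rintro ⟨_, h⟩
    refine ⟨isMatching_edgesF hf, ?_⟩
    intro M hM
    obtain ⟨g, hg, rfl⟩ := exists_partner hM
    have h1 := h g hg
    have h2 := card_fixedPts hf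
    have h3 := card_fixedPts hg
    omega
  · rintro ⟨_, h⟩
    refine ⟨hf, fun g hg => ?_⟩
    have h1 := h _ (isMatching_edgesF hg)
    have h2 := card_fixedPts hf
    have h3 := card_fixedPts hg
    omega

/-- a set on which a function acts as an involution without fixed points has even size -/
theorem even_card_of_invol {f : V → V} (S : Finset V) (h1 : ∀ v ∈ S, f v ∈ S)
    (h2 : ∀ v ∈ S, f (f v) = v) (h3 : ∀ v ∈ S, f v ≠ v) : Even S.card := by
  have := Finset.sum_involution (s := S) (f := fun _ => (1 : ZMod 2)) (fun v _ => f v)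
    (by intro a ha; decide) (by intro a ha _; exact h3 a ha) (by intro a ha; exact h1 a ha)
    (by intro a ha; exact h2 a ha)
  rw [Finset.sum_const, nsmul_eq_mul, mul_one] at this
  rwa [ZMod.natCast_eq_zero_iff_even] at this

end Part1

section Part2

section
variable {V : Type*}

theorem edgeList_append (X : List V) (x : V) (Y : List V) :
    edgeList (X ++ x :: Y) = edgeList (X ++ [x]) ++ edgeList (x :: Y) := by
  induction X with
  | nil => simp
  | cons a X ih =>
    cases X with
    | nil => simp
    | cons b X =>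
      simp only [List.cons_append, edgeList_cons_cons] at ih ⊢
      rw [ih]

theorem edgeList_reverse (l : List V) : edgeList l.reverse = (edgeList l).reverse := by
  induction l with
  | nil => rfl
  | cons a l ih =>
    cases l with
    | nil => rfl
    | cons b l =>
      rw [List.reverse_cons, List.reverse_cons, List.append_assoc]
      change edgeList (l.reverse ++ b :: [a]) = _
      rw [edgeList_append, ← List.reverse_cons, ih]
      simp [Sym2.eq_swap]

theorem mem_of_edgeList {l : List V} {e : Sym2 V} (h : e ∈ edgeList l) {v : V} (hv : v ∈ e) :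
    v ∈ l := by
  induction l with
  | nil => simp at h
  | cons a l ih =>
    cases l with
    | nil => simp at h
    | cons b l =>
      rw [edgeList_cons_cons, List.mem_cons] at h
      rcases h with rfl | h
      · rw [Sym2.mem_iff] at hv
        rcases hv with rfl | rfl <;> simp
      · exact List.mem_cons_of_mem _ (ih h)

theorem exists_edge {l : List V} (h : 2 ≤ l.length) {v : V} (hv : v ∈ l) :
    ∃ e ∈ edgeList l, v ∈ e := by
  induction l with
  | nil => simp at h
  | cons a l ih =>
    cases l with
    | nil => simp at h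
    | cons b l =>
      rw [List.mem_cons] at hv
      rcases hv with rfl | hv
      · exact ⟨s(v, b), by simp, by simp⟩
      · cases l with
        | nil =>
          rw [List.mem_singleton] at hv
          subst hv
          exact ⟨s(a, v), by simp, by simp⟩
        | cons c l =>
          obtain ⟨e, he, hve⟩ := ih (by simp) hv
          exact ⟨e, by rw [edgeList_cons_cons]; exact List.mem_cons_of_mem _ he, hve⟩

theorem chain_reverse {G : SimpleGraph V} {l : List V} (h : List.IsChain G.Adj l) :
    List.IsChain G.Adj l.reverse := by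
  rw [List.isChain_reverse]
  exact h.imp fun _ _ h => h.symm

theorem Runs.rotate {G : SimpleGraph V} {C : Finset (Sym2 V)} {a : V} {l : List V}
    (h : Runs G C a l) {c : V} (hc : c ∈ a :: l) : ∃ l', Runs G C c l' := by
  rw [List.mem_cons] at hc
  rcases hc with rfl | hc
  · exact ⟨l, h⟩
  · obtain ⟨A, B, rfl⟩ := List.append_of_mem hc
    obtain ⟨h1, h2, h3, h4, h5⟩ := h
    have hp : (a :: (A ++ c :: B)).Perm (c :: (B ++ a :: A)) := by
      have : (a :: A ++ c :: B).Perm (c :: B ++ a :: A) := List.perm_append_comm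
      simpa using this
    have e1 : a :: ((A ++ c :: B) ++ [a]) = (a :: A) ++ c :: (B ++ [a]) := by simp
    have e2 : c :: ((B ++ a :: A) ++ [c]) = (c :: B) ++ a :: (A ++ [c]) := by simp
    refine ⟨B ++ a :: A, hp.nodup_iff.mp h1, by rw [← hp.length_eq]; exact h2,
      by rw [← hp.length_eq]; exact h3, ?_, ?_⟩
    · rw [e1] at h4
      rw [e2]
      rw [List.isChain_split] at h4 ⊢
      exact ⟨h4.2, h4.1⟩
    · rw [h5, e1, e2, edgeList_append (a :: A) c (B ++ [a]), edgeList_append (c :: B) a (A ++ [c])]
      ext e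
      simp only [List.toFinset_append, mem_union, List.cons_append]
      tauto

theorem Runs.reverse {G : SimpleGraph V} {C : Finset (Sym2 V)} {a : V} {l : List V}
    (h : Runs G C a l) : Runs G C a l.reverse := by
  obtain ⟨h1, h2, h3, h4, h5⟩ := h
  have e : a :: (l.reverse ++ [a]) = (a :: (l ++ [a])).reverse := by simp
  refine ⟨?_, by simpa using h2, by simpa using h3, ?_, ?_⟩
  · simpa using h1
  · rw [e]; exact chain_reverse h4
  · rw [e, edgeList_reverse, List.toFinset_reverse]; exact h5

/-- A path with an even number of edges between two vertices of an odd cycle. -/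
theorem Runs.evenPath {G : SimpleGraph V} {C : Finset (Sym2 V)} {c : V} {l : List V}
    (h : Runs G C c l) {w : V} (hw : w ∈ l) :
    ∃ L : List V, Odd L.length ∧ (∀ x ∈ L, x ∈ l) ∧ (c :: (L ++ [w])).Nodup ∧
      List.IsChain G.Adj (c :: (L ++ [w])) := by
  obtain ⟨A, B, rfl⟩ := List.append_of_mem hw
  obtain ⟨h1, h2, h3, h4, h5⟩ := h
  have hlen : Odd A.length ∨ Odd B.length := by
    by_contra hcon
    rw [not_or, Nat.not_odd_iff_even, Nat.not_odd_iff_even] at hcon
    rw [List.length_cons, List.length_append, List.length_cons] at h3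
    have := (hcon.1.add hcon.2)
    have h6 : Even (A.length + (B.length + 1) + 1) := by
      have : A.length + (B.length + 1) + 1 = A.length + B.length + 2 := by ring
      rw [this]
      exact (hcon.1.add hcon.2).add (by decide)
    rw [← Nat.not_odd_iff_even] at h6
    exact h6 h3
  rcases hlen with hA | hB
  · refine ⟨A, hA, fun x hx => by simp [hx], ?_, ?_⟩
    · refine h1.sublist ?_
      simp
    · have e1 : c :: ((A ++ w :: B) ++ [c]) = (c :: A) ++ w :: (B ++ [c]) := by simp
      rw [e1, List.isChain_split] at h4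
      exact h4.1
  · refine ⟨B.reverse, by simpa using hB, fun x hx => by simp at hx; simp [hx], ?_, ?_⟩
    · have h6 : (w :: B ++ [c]).Nodup := by
        have hp : (c :: (w :: B)).Perm (w :: B ++ [c]) := (List.perm_append_singleton c (w :: B)).symm
        rw [← hp.nodup_iff]
        refine h1.sublist ?_
        rw [List.cons_sublist_cons]
        simp
      have h7 := List.nodup_reverse.mpr h6
      simpa using h7
    · have e1 : c :: ((A ++ w :: B) ++ [c]) = (c :: A) ++ w :: (B ++ [c]) := by simp
      rw [e1, List.isChain_split] at h4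
      have := chain_reverse h4.2
      simpa using this

/-- The pairing of consecutive elements of a sequence. -/
noncomputable def pair : List V → V → V
  | x :: y :: l, v => if v = x then y else if v = y then x else pair l v
  | _, v => v

theorem pair_notMem : ∀ (l : List V) {v : V}, v ∉ l → pair l v = v
  | [], v, _ => by simp [pair]
  | [_], v, _ => by simp [pair]
  | x :: y :: l, v, h => by
    simp only [List.mem_cons, not_or] at h
    rw [pair, if_neg h.1, if_neg h.2.1]
    exact pair_notMem l h.2.2

theorem pair_spec : ∀ (l : List V), l.Nodup → Even l.length → ∀ v ∈ l,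
    pair l v ∈ l ∧ pair l v ≠ v ∧ pair l (pair l v) = v ∧ s(v, pair l v) ∈ edgeList l
  | [], _, _, v, h => by simp at h
  | [x], _, h, v, _ => by simp at h
  | x :: y :: l, h1, h2, v, hv => by
    simp only [List.nodup_cons, List.mem_cons, not_or] at h1
    obtain ⟨⟨hxy, hxl⟩, hyl, hl⟩ := h1
    have he : Even l.length := by
      simp only [List.length_cons] at h2
      rw [Nat.even_add_one, Nat.even_add_one, not_not] at h2
      exact h2
    by_cases hvx : v = x
    · subst hvx
      have e : pair (v :: y :: l) v = y := by simp [pair]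
      have e2 : pair (v :: y :: l) y = v := by simp [pair, Ne.symm hxy]
      rw [e, e2]
      exact ⟨by simp, Ne.symm hxy, rfl, by simp⟩
    · by_cases hvy : v = y
      · subst hvy
        have e : pair (x :: v :: l) v = x := by simp [pair, hvx]
        have e2 : pair (x :: v :: l) x = v := by simp [pair]
        rw [e, e2]
        exact ⟨by simp, hxy, rfl, by simp [Sym2.eq_swap]⟩
      · have hvl : v ∈ l := by simpa [hvx, hvy] using hv
        have e : pair (x :: y :: l) v = pair l v := by simp [pair, hvx, hvy]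
        obtain ⟨i1, i2, i3, i4⟩ := pair_spec l hl he v hvl
        have hx' : pair l v ≠ x := by rintro h; rw [h] at i1; exact hxl i1
        have hy' : pair l v ≠ y := by rintro h; rw [h] at i1; exact hyl i1
        have e2 : pair (x :: y :: l) (pair l v) = pair l (pair l v) := by
          simp [pair, hx', hy']
        rw [e, e2]
        refine ⟨by simp [i1], i2, i3, ?_⟩
        cases l with
        | nil => simp at hvl
        | cons z l => simp at i4 ⊢; tauto

theorem chain_of_edge {G : SimpleGraph V} : ∀ {l : List V}, List.IsChain G.Adj l →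
    ∀ {e : Sym2 V}, e ∈ edgeList l → e ∈ G.edgeSet
  | [], _, e, h => by simp at h
  | [_], _, e, h => by simp at h
  | a :: b :: l, h, e, he => by
    rw [List.isChain_cons_cons] at h
    rw [edgeList_cons_cons, List.mem_cons] at he
    rcases he with rfl | he
    · exact h.1
    · exact chain_of_edge h.2 he

end

variable {V : Type*} [Fintype V]

theorem Runs.mem_vertexSet {G : SimpleGraph V} {C : Finset (Sym2 V)} {a : V} {l : List V}
    (h : Runs G C a l) (v : V) : v ∈ vertexSet C ↔ v ∈ a :: l := by
  obtain ⟨h1, h2, h3, h4, h5⟩ := h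
  rw [Pool.Agent.Results.MP_079569_co.FlowerDet.mem_vertexSet]
  have h6 : ∀ v, v ∈ a :: (l ++ [a]) ↔ v ∈ a :: l := by
    intro v; simp; tauto
  constructor
  · rintro ⟨e, he, hv⟩
    rw [h5, List.mem_toFinset] at he
    rw [← h6]
    exact mem_of_edgeList he hv
  · intro hv
    rw [← h6] at hv
    obtain ⟨e, he, hve⟩ := exists_edge (by simp) hv
    exact ⟨e, by rw [h5, List.mem_toFinset]; exact he, hve⟩

theorem Runs.card_vertexSet {G : SimpleGraph V} {C : Finset (Sym2 V)} {a : V} {l : List V}
    (h : Runs G C a l) : (vertexSet C).card = (a :: l).length := by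
  rw [← List.toFinset_card_of_nodup h.1]
  congr 1
  ext v
  rw [h.mem_vertexSet, List.mem_toFinset]

theorem odd_card_vertexSet {G : SimpleGraph V} {C : Finset (Sym2 V)} (h : IsOddCycle G C) :
    Odd (vertexSet C).card := by
  obtain ⟨a, l, h⟩ := h
  rw [h.card_vertexSet]; exact h.2.2.1

/-- the near-perfect matching of an odd cycle missing `c` -/
theorem exists_near {G : SimpleGraph V} {C : Finset (Sym2 V)} (h : IsOddCycle G C) {c : V}
    (hc : c ∈ vertexSet C) : ∃ p : V → V, p c = c ∧ (∀ v ∉ vertexSet C, p v = v) ∧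
      ∀ v ∈ vertexSet C, p (p v) = v ∧ p v ∈ vertexSet C ∧
        (v ≠ c → p v ≠ v ∧ p v ≠ c ∧ s(v, p v) ∈ C ∧ G.Adj v (p v)) := by
  obtain ⟨a, l, h⟩ := h
  rw [h.mem_vertexSet] at hc
  obtain ⟨l, h⟩ := h.rotate hc
  have hn := List.nodup_cons.mp h.1
  have hev : Even l.length := by
    have := h.2.2.1
    rw [List.length_cons, Nat.odd_add_one, Nat.not_odd_iff_even] at this
    exact this
  refine ⟨pair l, pair_notMem l hn.1, ?_, ?_⟩
  · intro v hv
    rw [h.mem_vertexSet, List.mem_cons, not_or] at hv
    exact pair_notMem l hv.2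
  · intro v hv
    rw [h.mem_vertexSet, List.mem_cons] at hv
    rw [h.mem_vertexSet]
    by_cases hvc : v = c
    · subst hvc
      rw [pair_notMem l hn.1, pair_notMem l hn.1]
      exact ⟨rfl, by simp, fun h => absurd rfl h⟩
    · have hvl : v ∈ l := by tauto
      obtain ⟨i1, i2, i3, i4⟩ := pair_spec l hn.2 hev v hvl
      have hmem : s(v, pair l v) ∈ edgeList (c :: (l ++ [c])) := by
        cases l with
        | nil => simp at hvl
        | cons x l =>
          obtain ⟨B, z, hB⟩ := List.eq_nil_or_concat (x :: l) |>.resolve_left (by simp)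
          have e1 : c :: ((x :: l) ++ [c]) = (c :: B) ++ z :: [c] := by
            rw [hB]; simp
          rw [e1, edgeList_append, List.mem_append]
          left
          have e2 : (c :: B) ++ [z] = c :: x :: l := by rw [List.cons_append, hB]; simp
          rw [e2, edgeList_cons_cons]
          exact List.mem_cons_of_mem _ i4
      refine ⟨i3, List.mem_cons_of_mem _ i1, fun _ => ⟨i2, ?_, ?_, ?_⟩⟩
      · rintro h'; rw [h'] at i1; exact hn.1 i1
      · rw [h.2.2.2.2, List.mem_toFinset]; exact hmem
      · exact chain_of_edge h.2.2.2.1 hmem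

theorem exists_evenPath {G : SimpleGraph V} {C : Finset (Sym2 V)} (h : IsOddCycle G C) {c w : V}
    (hc : c ∈ vertexSet C) (hw : w ∈ vertexSet C) (hcw : c ≠ w) :
    ∃ L : List V, Odd L.length ∧ (∀ x ∈ L, x ∈ vertexSet C) ∧ (c :: (L ++ [w])).Nodup ∧
      List.IsChain G.Adj (c :: (L ++ [w])) := by
  obtain ⟨a, l, h⟩ := h
  rw [h.mem_vertexSet] at hc
  obtain ⟨l, h⟩ := h.rotate hc
  rw [h.mem_vertexSet, List.mem_cons] at hw
  obtain ⟨L, h1, h2, h3, h4⟩ := h.evenPath (w := w) (by tauto)
  exact ⟨L, h1, fun x hx => by rw [h.mem_vertexSet]; exact List.mem_cons_of_mem _ (h2 x hx), h3, h4⟩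

/-- building an odd cycle -/
theorem mk_cycle {G : SimpleGraph V} {a : V} {l : List V} (h1 : (a :: l).Nodup)
    (h2 : Odd (a :: l).length) (h3 : List.IsChain G.Adj (a :: (l ++ [a]))) :
    ∃ C, IsOddCycle G C ∧ ∀ v, v ∈ vertexSet C ↔ v ∈ a :: l := by
  have h4 : 3 ≤ (a :: l).length := by
    match l with
    | [] => simp at h3
    | [b] => exact absurd h2 (by simp)
    | b :: c :: l => simp
  have h5 : Runs G _ a l := ⟨h1, h4, h2, h3, rfl⟩
  exact ⟨_, ⟨a, l, h5⟩, h5.mem_vertexSet⟩

/-- an odd closed walk contains an odd cycle -/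
theorem odd_closed {G : SimpleGraph V} : ∀ (n : ℕ) (a : V) (l : List V), (a :: l).length = n →
    Odd n → List.IsChain G.Adj (a :: (l ++ [a])) →
      ∃ C, IsOddCycle G C ∧ ∀ v ∈ vertexSet C, v ∈ a :: l := by
  intro n
  induction n using Nat.strong_induction_on with
  | _ n ih =>
    intro a l hn hodd hch
    by_cases hnd : (a :: l).Nodup
    · obtain ⟨C, h1, h2⟩ := mk_cycle hnd (by rw [hn]; exact hodd) hch
      exact ⟨C, h1, fun v hv => (h2 v).mp hv⟩
    · -- a repeated vertex
      obtain ⟨A, x, B, D, hABD⟩ : ∃ A x B D, a :: l = A ++ x :: (B ++ x :: D) := by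
        have : ¬ (a :: l).Pairwise (· ≠ ·) := hnd
        rw [← List.exists_duplicate_iff_not_nodup] at hnd
        obtain ⟨x, hx⟩ := hnd
        rw [List.duplicate_iff_sublist] at hx
        have hx1 : x ∈ a :: l := hx.subset (by simp)
        obtain ⟨A, E, hAE, hxA⟩ : ∃ A E, a :: l = A ++ x :: E ∧ x ∉ A := by
          obtain ⟨A, E, hAE, hxA⟩ := List.eq_append_cons_of_mem hx1
          exact ⟨A, E, hAE, hxA⟩
        have hxE : x ∈ E := by
          rw [hAE] at hx
          by_contra hne
          have := hx.count_le x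
          rw [List.count_append, List.count_eq_zero_of_not_mem hxA, List.count_cons_self,
            List.count_cons_self, List.count_cons_self, List.count_eq_zero_of_not_mem hne] at this
          simp at this
        obtain ⟨B, D, rfl⟩ := List.append_of_mem hxE
        exact ⟨A, x, B, D, hAE⟩
      have hlen : (a :: l).length = A.length + B.length + D.length + 2 := by
        rw [hABD]; simp; omega
      have e0 : a :: (l ++ [a]) = A ++ x :: (B ++ x :: (D ++ [a])) := by
        rw [← List.cons_append, hABD]; simp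
      rw [e0, List.isChain_split] at hch
      have e3 : x :: (B ++ x :: (D ++ [a])) = (x :: B) ++ x :: (D ++ [a]) := by simp
      have c1 := hch.1
      have c23 := hch.2
      rw [e3, List.isChain_split] at c23
      have c2 := c23.1
      have c3 := c23.2
      rw [hn] at hlen
      by_cases hB : Odd (B.length + 1)
      · obtain ⟨C, h1, h2⟩ := ih (B.length + 1) (by omega) x B rfl hB c2
        refine ⟨C, h1, fun v hv => ?_⟩
        have := h2 v hv
        rw [hABD]
        simp at this ⊢
        tauto
      · have hodd' : Odd (A.length + D.length + 1) := by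
          rw [hlen] at hodd
          rw [Nat.not_odd_iff_even] at hB
          rcases hB with ⟨r, hr⟩
          rcases hodd with ⟨t, ht⟩
          exact ⟨t - r, by omega⟩
        clear hch e0
        cases A with
        | nil =>
          have hax : a = x := by simpa using (List.cons.inj hABD).1
          subst hax
          obtain ⟨C, h1, h2⟩ := ih (D.length + 1) (by simp at hlen; omega) a D rfl
            (by simpa using hodd') (by simpa using c3)
          refine ⟨C, h1, fun v hv => ?_⟩
          have := h2 v hv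
          rw [hABD]
          simp at this ⊢
          tauto
        | cons a' A =>
          have haa : a = a' := by simpa using (List.cons.inj hABD).1
          subst haa
          have e4 : a :: ((A ++ x :: D) ++ [a]) = (a :: A) ++ x :: (D ++ [a]) := by simp
          have c4 : List.IsChain G.Adj (a :: ((A ++ x :: D) ++ [a])) := by
            rw [e4, List.isChain_split]
            exact ⟨c1, c3⟩
          obtain ⟨C, h1, h2⟩ := ih (A.length + 1 + D.length + 1) (by
            simp at hlen; omega) a (A ++ x :: D) (by simp; omega) (by simpa using hodd') c4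
          refine ⟨C, h1, fun v hv => ?_⟩
          have := h2 v hv
          rw [hABD]
          simp at this ⊢
          tauto

end Part2

section Part3

variable {V : Type*} [Fintype V]

/-- The cycle `C` is an `M`-blossom with base `b`. -/
def IsBlossom (G : SimpleGraph V) (M C : Finset (Sym2 V)) (b : V) : Prop :=
  IsOddCycle G C ∧ (vertexSet C).card = 2 * (C ∩ M).card + 1 ∧ b ∈ vertexSet C ∧
    ∀ e ∈ C ∩ M, b ∉ e

/-- The path with vertex sequence `S` is an `M`-stem for the blossom `C` with base `b`. -/
def IsStem (G : SimpleGraph V) (M C : Finset (Sym2 V)) (b : V) (S : List V) : Prop :=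
  S.Nodup ∧ S.IsChain G.Adj ∧ Even (edgeList S).length ∧
    (edgeList S).IsChain (fun e e' => e ∈ M ↔ e' ∉ M) ∧
    (∃ u, S.head? = some u ∧ ∀ e ∈ M, u ∉ e) ∧ S.getLast? = some b ∧
    ∀ v ∈ S, v ∈ vertexSet C → v = b

/-- The reach set of the odd cycle `C`. -/
def reach (G : SimpleGraph V) (C : Finset (Sym2 V)) : Set V :=
  {v | ∃ M b S, IsMaximum G M ∧ IsBlossom G M C b ∧ IsStem G M C b S ∧
    (v ∈ vertexSet C ∨ v ∈ S)}

/-- `G` is `R`-disjoint. -/
def RDisjoint (G : SimpleGraph V) : Prop :=
  (∃ C, IsOddCycle G C) ∧ (∀ C, IsOddCycle G C → (reach G C).Nonempty) ∧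
    ∀ C C', IsOddCycle G C → IsOddCycle G C' → C ≠ C' → Disjoint (reach G C) (reach G C')

theorem length_edgeList (a : V) (l : List V) : (edgeList (a :: l)).length = l.length := by
  induction l generalizing a with
  | nil => rfl
  | cons b l ih => rw [edgeList_cons_cons, List.length_cons, ih, List.length_cons]

/-! ### alternating sequences -/

/-- `z :: l` is alternating, starting with an unmatched edge. -/
def Alt (G : SimpleGraph V) (f : V → V) : V → List V → Prop
  | _, [] => True
  | _, [_] => False
  | z, x :: y :: l => G.Adj z x ∧ f x = y ∧ f x ≠ x ∧ Alt G f y l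

theorem Alt.isChain {G : SimpleGraph V} {f : V → V} (hf : Mt G f) : ∀ {z : V} {l : List V},
    Alt G f z l → List.IsChain G.Adj (z :: l)
  | z, [], _ => by simp
  | z, [_], h => by exact h.elim
  | z, x :: y :: l, h => by
    obtain ⟨h1, h2, h3, h4⟩ := h
    subst h2
    exact List.IsChain.cons_cons h1 (List.IsChain.cons_cons (hf.2 x h3) (Alt.isChain hf h4) )

theorem Alt.even {G : SimpleGraph V} {f : V → V} : ∀ {z : V} {l : List V},
    Alt G f z l → Even l.length
  | z, [], _ => by simp
  | z, [_], h => by exact h.elim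
  | z, x :: y :: l, h => by
    obtain ⟨h1, h2, h3, h4⟩ := h
    have := Alt.even h4
    rw [List.length_cons, List.length_cons, Nat.even_add_one, Nat.even_add_one, not_not]
    exact this

theorem Alt.edges {G : SimpleGraph V} {f : V → V} (hf : Mt G f) : ∀ {z : V} {l : List V},
    Alt G f z l → (z :: l).Nodup → f z ∉ l →
      (edgeList (z :: l)).IsChain (fun e e' => e ∈ edgesF f ↔ e' ∉ edgesF f) ∧
      ∀ e ∈ (edgeList (z :: l)).head?, e ∉ edgesF f
  | z, [], _, _, _ => by simp
  | z, [_], h, _, _ => by exact h.elim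
  | z, x :: y :: l, h, hnd, hz => by
    obtain ⟨h1, h2, h3, h4⟩ := h
    subst h2
    have hnd2 := List.nodup_cons.mp hnd
    have hnd3 := List.nodup_cons.mp hnd2.2
    have h5 : f (f x) ∉ l := by
      rw [hf.1 x]
      intro hx
      exact hnd3.1 (List.mem_cons_of_mem _ hx)
    have ih := Alt.edges hf h4 hnd3.2 h5
    have e1 : s(z, x) ∉ edgesF f := by
      rw [mem_edgesF hf.1]
      rintro ⟨-, h⟩
      apply hz
      rw [h]; simp
    have e2 : s(x, f x) ∈ edgesF f := by
      rw [mem_edgesF hf.1]
      exact ⟨Ne.symm h3, rfl⟩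
    rw [edgeList_cons_cons, edgeList_cons_cons]
    refine ⟨?_, ?_⟩
    · rw [List.isChain_cons_cons]
      refine ⟨by tauto, ?_⟩
      rw [List.isChain_cons]
      refine ⟨?_, ih.1⟩
      intro e he
      have := ih.2 e he
      tauto
    · intro e he
      simp at he
      rw [← he]; exact e1

theorem alt_of_chain {G : SimpleGraph V} {f : V → V} (hf : Mt G f) : ∀ {z : V} {l : List V},
    List.IsChain G.Adj (z :: l) → Even l.length →
      (edgeList (z :: l)).IsChain (fun e e' => e ∈ edgesF f ↔ e' ∉ edgesF f) →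
      (∀ e ∈ (edgeList (z :: l)).head?, e ∉ edgesF f) → Alt G f z l
  | z, [], _, _, _, _ => by simp [Alt]
  | z, [_], _, h, _, _ => by simp at h
  | z, x :: y :: l, h1, h2, h3, h4 => by
    rw [edgeList_cons_cons, edgeList_cons_cons] at h3 h4
    rw [List.isChain_cons_cons] at h3
    rw [List.isChain_cons] at h3
    rw [List.isChain_cons_cons, List.isChain_cons_cons] at h1
    have e1 : s(z, x) ∉ edgesF f := h4 _ (by simp)
    have e2 : s(x, y) ∈ edgesF f := by tauto
    rw [mem_edgesF hf.1] at e2
    refine ⟨h1.1, e2.2, by rw [e2.2]; exact Ne.symm e2.1, ?_⟩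
    apply alt_of_chain hf h1.2.2
    · rw [List.length_cons, List.length_cons, Nat.even_add_one, Nat.even_add_one, not_not] at h2
      exact h2
    · exact h3.2.2
    · intro e he
      have h5 := h3.2.1 e he
      have e2' : s(x, y) ∈ edgesF f := by tauto
      tauto

theorem Alt.congr {G : SimpleGraph V} {f g : V → V} : ∀ {z : V} {l : List V},
    Alt G f z l → (∀ v ∈ l, g v = f v) → Alt G g z l
  | z, [], _, _ => by simp [Alt]
  | z, [_], h, _ => by exact h.elim
  | z, x :: y :: l, h, hg => by
    obtain ⟨h1, h2, h3, h4⟩ := h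
    have hx := hg x (by simp)
    exact ⟨h1, by rw [hx, h2], by rw [hx]; exact h3, Alt.congr h4 (fun v hv => hg v (by simp [hv]))⟩

/-- switching one step: `z` becomes matched to `w`, and the partner of `w` becomes uncovered -/
noncomputable def switch (f : V → V) (z w : V) : V → V :=
  fun v => if v = z then w else if v = w then z else if v = f w then v else f v

theorem switch_mt {G : SimpleGraph V} {f : V → V} (hf : MaxMt G f) {z w : V} (hz : f z = z)
    (hzw : G.Adj z w) : f w ≠ w ∧ f w ≠ z ∧ MaxMt G (switch f z w) ∧ switch f z w (f w) = f w ∧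
      switch f z w w = z := by
  have hne : z ≠ w := hzw.ne
  have hfwz : f w ≠ z := by
    intro h
    have := hf.1.1 w
    rw [h, hz] at this
    exact hne this
  have key : ∀ v, v ≠ z → v ≠ w → v ≠ f w → f v ≠ z ∧ f v ≠ w ∧ f v ≠ f w := by
    intro v h1 h2 h3
    refine ⟨?_, ?_, ?_⟩
    · intro h; apply h1; rw [← hf.1.1 v, h, hz]
    · intro h; apply h3; rw [← hf.1.1 v, h]
    · intro h; apply h2; exact hf.1.inj h
  have hmt : Mt G (switch f z w) := by
    constructor
    · intro v
      unfold switch
      by_cases h1 : v = z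
      · subst h1; simp [Ne.symm hne]
      · by_cases h2 : v = w
        · subst h2; simp [h1]
        · by_cases h3 : v = f w
          · subst h3; simp [h1, h2]
          · obtain ⟨k1, k2, k3⟩ := key v h1 h2 h3
            simp [h1, h2, h3, k1, k2, k3, hf.1.1 v]
    · intro v
      unfold switch
      by_cases h1 : v = z
      · subst h1; simp [hzw]
      · by_cases h2 : v = w
        · subst h2; simp [h1, hzw.symm]
        · by_cases h3 : v = f w
          · subst h3; simp [h1, h2]
          · simp only [h1, h2, h3, if_false]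
            exact hf.1.2 v
  have hfw : f w ≠ w := by
    intro h
    have h1 := hf.2 _ hmt
    have h2 : fixedPts (switch f z w) ⊂ fixedPts f := by
      rw [Finset.ssubset_iff_of_subset]
      · refine ⟨z, by simp [hz], ?_⟩
        rw [mem_fixedPts]
        simp [switch, Ne.symm hne]
      · intro v
        rw [mem_fixedPts, mem_fixedPts]
        unfold switch
        rw [h]
        by_cases h1 : v = z
        · subst h1; simp [hz]
        · by_cases h2 : v = w
          · subst h2; simp [h]
          · simp [h1, h2]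
    have := card_lt_card h2
    omega
  refine ⟨hfw, hfwz, ⟨hmt, ?_⟩, ?_, ?_⟩
  · intro g hg
    refine le_trans ?_ (hf.2 g hg)
    have h2 : fixedPts (switch f z w) ⊆ insert (f w) ((fixedPts f).erase z) := by
      intro v
      rw [mem_fixedPts, mem_insert, mem_erase, mem_fixedPts]
      unfold switch
      by_cases h1 : v = z
      · subst h1; simp [Ne.symm hne]
      · by_cases h2 : v = w
        · subst h2
          intro h
          rw [if_neg h1, if_pos rfl] at h
          exact absurd h hne
        · by_cases h3 : v = f w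
          · subst h3; simp
          · simp [h1, h2, h3]
    have h3 := card_le_card h2
    have h4 := card_insert_le (f w) ((fixedPts f).erase z)
    have h5 : z ∈ fixedPts f := by simp [hz]
    rw [card_erase_of_mem h5] at h4
    have h6 : 0 < (fixedPts f).card := card_pos.mpr ⟨z, h5⟩
    omega
  · simp [switch, hfwz, hfw]
  · simp [switch, Ne.symm hne]

theorem switch_of_ne {f : V → V} {z w v : V} (h1 : v ≠ z) (h2 : v ≠ w) (h3 : v ≠ f w) :
    switch f z w v = f v := by
  simp [switch, h1, h2, h3]

/-- flipping along an alternating sequence -/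
theorem flip_alt {G : SimpleGraph V} : ∀ (n : ℕ) (f : V → V) (z : V) (l : List V),
    l.length = n → MaxMt G f → f z = z → Alt G f z l → (z :: l).Nodup →
      ∃ g, MaxMt G g ∧ (∀ b, (z :: l).getLast? = some b → g b = b) ∧
        ∀ v, v ∉ z :: l → g v = f v := by
  intro n
  induction n using Nat.strong_induction_on with
  | _ n ih =>
    intro f z l hn hf hz hl hnd
    match l, hl with
    | [], _ => exact ⟨f, hf, by intro b hb; simp at hb; rw [← hb]; exact hz, fun v _ => rfl⟩
    | x :: y :: l, hl =>
      obtain ⟨h1, h2, h3, h4⟩ := hl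
      subst h2
      obtain ⟨k1, k2, k3, k4, k5⟩ := switch_mt hf hz h1
      have hnd2 := List.nodup_cons.mp hnd
      have hnd3 := List.nodup_cons.mp hnd2.2
      have hnd4 := List.nodup_cons.mp hnd3.2
      have hcong : ∀ v ∈ l, switch f z x v = f v := by
        intro v hv
        apply switch_of_ne
        · rintro rfl; exact hnd2.1 (by simp [hv])
        · rintro rfl; exact hnd3.1 (by simp [hv])
        · rintro rfl; exact hnd4.1 hv
      obtain ⟨g, g1, g2, g3⟩ := ih l.length (by simp at hn; omega) (switch f z x) (f x) l rfl k3 k4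
        (h4.congr hcong) hnd3.2
      refine ⟨g, g1, ?_, ?_⟩
      · intro b hb
        apply g2
        rw [List.getLast?_cons_cons, List.getLast?_cons_cons] at hb
        exact hb
      · intro v hv
        simp only [List.mem_cons, not_or] at hv
        rw [g3 v (by simp only [List.mem_cons, not_or]; exact hv.2.2), switch_of_ne hv.1 hv.2.1 hv.2.2.1]

/-! ### blossoms -/

/-- `g` restricts to a near-perfect matching of the odd cycle `C`, missing `c` -/
def NearP (g : V → V) (C : Finset (Sym2 V)) (c : V) : Prop :=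
  ∀ v ∈ vertexSet C, v ≠ c → g v ∈ vertexSet C ∧ g v ≠ v ∧ g v ≠ c ∧ s(v, g v) ∈ C

theorem blossom_of_near {G : SimpleGraph V} {g : V → V} {C : Finset (Sym2 V)} {c : V}
    (hg : Mt G g) (hC : IsOddCycle G C) (hc : c ∈ vertexSet C) (hn : NearP g C c) :
    IsBlossom G (edgesF g) C c := by
  have hne : ∀ e ∈ C ∩ edgesF g, c ∉ e := by
    intro e he hce
    rw [mem_inter] at he
    obtain ⟨b, rfl⟩ := hce
    have h1 := (mem_edgesF hg.1).mp he.2
    have hb : b ∈ vertexSet C := mem_vertexSet.mpr ⟨_, he.1, by simp⟩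
    have := (hn b hb (Ne.symm h1.1)).2.2.1
    apply this
    rw [← h1.2, hg.1]
  refine ⟨hC, ?_, hc, hne⟩
  have h1 : IsMatching G (C ∩ edgesF g) := by
    have := isMatching_edgesF hg
    refine ⟨fun e he => this.1 e (mem_inter.mp he).2, fun e he e' he' => this.2 e (mem_inter.mp he).2 e' (mem_inter.mp he').2⟩
  rw [← card_vertexSet h1]
  have h2 : vertexSet (C ∩ edgesF g) = (vertexSet C).erase c := by
    ext v
    rw [mem_erase, mem_vertexSet]
    constructor
    · rintro ⟨e, he, hv⟩
      refine ⟨?_, mem_vertexSet.mpr ⟨e, (mem_inter.mp he).1, hv⟩⟩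
      rintro rfl
      exact hne e he hv
    · rintro ⟨h3, h4⟩
      obtain ⟨k1, k2, k3, k4⟩ := hn v h4 h3
      exact ⟨s(v, g v), mem_inter.mpr ⟨k4, (mem_edgesF hg.1).mpr ⟨Ne.symm k2, rfl⟩⟩, by simp⟩
  rw [h2, card_erase_of_mem hc]
  have := card_pos.mpr ⟨c, hc⟩
  omega

theorem near_of_blossom {G : SimpleGraph V} {f : V → V} {C : Finset (Sym2 V)} {b : V}
    (hf : Mt G f) (h : IsBlossom G (edgesF f) C b) :
    ∀ v ∈ vertexSet C, v ≠ b → f v ∈ vertexSet C := by
  obtain ⟨h1, h2, h3, h4⟩ := h
  have h5 : IsMatching G (C ∩ edgesF f) := by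
    have := isMatching_edgesF hf
    refine ⟨fun e he => this.1 e (mem_inter.mp he).2, fun e he e' he' => this.2 e (mem_inter.mp he).2 e' (mem_inter.mp he').2⟩
  rw [← card_vertexSet h5] at h2
  have h6 : vertexSet (C ∩ edgesF f) = (vertexSet C).erase b := by
    apply eq_of_subset_of_card_le
    · intro v hv
      rw [mem_vertexSet] at hv
      obtain ⟨e, he, hv⟩ := hv
      rw [mem_erase]
      refine ⟨?_, mem_vertexSet.mpr ⟨e, (mem_inter.mp he).1, hv⟩⟩
      rintro rfl
      exact h4 e he hv
    · rw [card_erase_of_mem h3]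
      omega
  intro v hv hvb
  have h7 : v ∈ vertexSet (C ∩ edgesF f) := by rw [h6, mem_erase]; exact ⟨hvb, hv⟩
  rw [mem_vertexSet] at h7
  obtain ⟨e, he, hve⟩ := h7
  rw [mem_inter] at he
  obtain ⟨w, rfl⟩ := hve
  have h8 := (mem_edgesF hf.1).mp he.2
  rw [h8.2]
  exact mem_vertexSet.mpr ⟨_, he.1, by simp⟩

/-- a maximum matching preserving the vertex set of `C` -/
def Expo (G : SimpleGraph V) (C : Finset (Sym2 V)) (f : V → V) : Prop :=
  MaxMt G f ∧ ∀ v ∈ vertexSet C, f v ∈ vertexSet C

theorem expo_of_flower {G : SimpleGraph V} {M C : Finset (Sym2 V)} {b : V} {S : List V}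
    (hM : IsMaximum G M) (hB : IsBlossom G M C b) (hS : IsStem G M C b S) :
    ∃ f, Expo G C f := by
  obtain ⟨f, hf, rfl⟩ := exists_partner hM.1
  have hmax : MaxMt G f := (maxMt_iff hf).mpr hM
  obtain ⟨s1, s2, s3, s4, ⟨u, s5, s6⟩, s7, s8⟩ := hS
  cases S with
  | nil => simp at s5
  | cons a l =>
    simp only [List.head?_cons, Option.some.injEq] at s5
    subst s5
    have hfa : f a = a := by
      by_contra h
      exact s6 s(a, f a) ((mem_edgesF hf.1).mpr ⟨Ne.symm h, rfl⟩) (by simp)
    rw [length_edgeList] at s3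
    have halt : Alt G f a l := by
      apply alt_of_chain hf s2 s3 s4
      intro e he
      cases l with
      | nil => simp at he
      | cons x l =>
        simp at he
        intro h
        exact s6 e h (by rw [← he]; simp)
    obtain ⟨g, g1, g2, g3⟩ := flip_alt l.length f a l rfl hmax hfa halt s1
    have hn := near_of_blossom hf hB
    refine ⟨g, g1, ?_⟩
    intro v hv
    by_cases hvb : v = b
    · rw [hvb, g2 b s7]; exact hB.2.2.1
    · rw [g3 v]
      · exact hn v hv hvb
      · intro h
        exact hvb (s8 v h hv)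

theorem Expo.rotate {G : SimpleGraph V} {C : Finset (Sym2 V)} {f : V → V} (h : Expo G C f)
    (hC : IsOddCycle G C) {c : V} (hc : c ∈ vertexSet C) :
    ∃ g, Expo G C g ∧ g c = c ∧ (∀ v ∉ vertexSet C, g v = f v) ∧ NearP g C c := by
  obtain ⟨p, p1, p2, p3⟩ := exists_near hC hc
  have hout : ∀ v ∉ vertexSet C, f v ∉ vertexSet C := by
    intro v hv h'
    apply hv
    rw [← h.1.1.1 v]
    exact h.2 _ h'
  let g : V → V := fun v => if v ∈ vertexSet C then p v else f v
  have g1 : ∀ v ∈ vertexSet C, g v = p v := fun v hv => by simp [g, hv]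
  have g2 : ∀ v ∉ vertexSet C, g v = f v := fun v hv => by simp [g, hv]
  have hg : Mt G g := by
    constructor
    · intro v
      by_cases hv : v ∈ vertexSet C
      · rw [g1 v hv, g1 _ (p3 v hv).2.1, (p3 v hv).1]
      · rw [g2 v hv, g2 _ (hout v hv), h.1.1.1]
    · intro v
      by_cases hv : v ∈ vertexSet C
      · rw [g1 v hv]
        intro hne
        by_cases hvc : v = c
        · rw [hvc, p1] at hne; exact absurd rfl hne
        · exact ((p3 v hv).2.2 hvc).2.2.2
      · rw [g2 v hv]; exact h.1.1.2 v
  have hfix : ∃ v ∈ vertexSet C, f v = v := by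
    by_contra hcon
    push Not at hcon
    have := even_card_of_invol (vertexSet C) h.2 (fun v _ => h.1.1.1 v) hcon
    rw [← Nat.not_odd_iff_even] at this
    exact this (odd_card_vertexSet hC)
  obtain ⟨v0, hv0, hfv0⟩ := hfix
  refine ⟨g, ⟨⟨hg, ?_⟩, ?_⟩, by rw [g1 c hc, p1], g2, ?_⟩
  · intro g' hg'
    refine le_trans ?_ (h.1.2 g' hg')
    have h2 : fixedPts g ⊆ insert c ((fixedPts f).erase v0) := by
      intro v
      rw [mem_fixedPts, mem_insert, mem_erase, mem_fixedPts]
      intro hgv
      by_cases hv : v ∈ vertexSet C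
      · left
        by_contra hvc
        rw [g1 v hv] at hgv
        exact ((p3 v hv).2.2 hvc).1 hgv
      · right
        rw [g2 v hv] at hgv
        exact ⟨by rintro rfl; exact hv hv0, hgv⟩
    have h3 := card_le_card h2
    have h4 := card_insert_le c ((fixedPts f).erase v0)
    have h5 : v0 ∈ fixedPts f := by simp [hfv0]
    rw [card_erase_of_mem h5] at h4
    have h6 : 0 < (fixedPts f).card := card_pos.mpr ⟨v0, h5⟩
    omega
  · intro v hv
    rw [g1 v hv]; exact (p3 v hv).2.1
  · intro v hv hvc
    rw [g1 v hv]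
    obtain ⟨k1, k2, k3⟩ := p3 v hv
    obtain ⟨k4, k5, k6, k7⟩ := k3 hvc
    exact ⟨k2, k4, k5, k6⟩

theorem stem_of_alt {G : SimpleGraph V} {g : V → V} {C : Finset (Sym2 V)} {c z : V} {l : List V}
    (hg : Mt G g) (hz : g z = z) (hl : Alt G g z l) (hnd : (z :: l).Nodup)
    (hlast : (z :: l).getLast? = some c) (hC : ∀ v ∈ z :: l, v ∈ vertexSet C → v = c) :
    IsStem G (edgesF g) C c (z :: l) := by
  refine ⟨hnd, hl.isChain hg, ?_, ?_, ⟨z, by simp, ?_⟩, hlast, hC⟩
  · rw [length_edgeList]; exact hl.even
  · refine (hl.edges hg hnd ?_).1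
    rw [hz]
    exact (List.nodup_cons.mp hnd).1
  · intro e he hze
    obtain ⟨w, rfl⟩ := hze
    have := (mem_edgesF hg.1).mp he
    rw [hz] at this
    exact this.1 this.2

theorem expo_exists {G : SimpleGraph V} (h : RDisjoint G) {C : Finset (Sym2 V)}
    (hC : IsOddCycle G C) : ∃ f, Expo G C f := by
  obtain ⟨v, M, b, S, h1, h2, h3, h4⟩ := h.2.1 C hC
  exact expo_of_flower h1 h2 h3

theorem vertexSet_subset_reach {G : SimpleGraph V} (h : RDisjoint G) {C : Finset (Sym2 V)}
    (hC : IsOddCycle G C) {v : V} (hv : v ∈ vertexSet C) : v ∈ reach G C := by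
  obtain ⟨f, hf⟩ := expo_exists h hC
  obtain ⟨g, g1, g2, g3, g4⟩ := hf.rotate hC hv
  refine ⟨edgesF g, v, [v], (maxMt_iff g1.1.1).mp g1.1, blossom_of_near g1.1.1 hC hv g4, ?_,
    Or.inl hv⟩
  apply stem_of_alt g1.1.1 g2 (by simp [Alt]) (by simp) (by simp)
  intro w hw _
  simpa using hw

theorem eq_of_mem_reach {G : SimpleGraph V} (h : RDisjoint G) {C D : Finset (Sym2 V)}
    (hC : IsOddCycle G C) (hD : IsOddCycle G D) {v : V} (hv : v ∈ reach G C)
    (hv' : v ∈ reach G D) : C = D := by
  by_contra hne
  exact Set.disjoint_left.mp (h.2.2 C D hC hD hne) hv hv'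

end Part3

section Part4

variable {V : Type*} [Fintype V]

/-- alternating sequences growing out of the cycle `C` -/
inductive AP (G : SimpleGraph V) (f : V → V) (C : Finset (Sym2 V)) : List V → Prop
  | base (c : V) : c ∈ vertexSet C → AP G f C [c]
  | step (z : V) (l : List V) (w : V) : AP G f C (z :: l) → G.Adj z w → w ∉ vertexSet C →
      w ∉ z :: l → AP G f C (f w :: w :: z :: l)

theorem AP.flip {G : SimpleGraph V} {f : V → V} {C : Finset (Sym2 V)} (hC : IsOddCycle G C)
    (hf : Expo G C f) {L : List V} (h : AP G f C L) : ∃ z l c g, L = z :: l ∧ c ∈ vertexSet C ∧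
      L.Nodup ∧ L.getLast? = some c ∧ (∀ v ∈ L, v ∈ vertexSet C → v = c) ∧
      (∀ v ∈ L, v ≠ c → f v ∈ L) ∧ MaxMt G g ∧ g z = z ∧ Alt G g z l ∧ NearP g C c ∧
      ∀ v ∉ vertexSet C, v ∉ L → g v = f v := by
  induction h with
  | base c hc =>
    obtain ⟨g, g1, g2, g3, g4⟩ := hf.rotate hC hc
    refine ⟨c, [], c, g, rfl, hc, by simp, by simp, ?_, ?_, g1.1, g2, by simp [Alt], g4, ?_⟩
    · intro v hv _; simpa using hv
    · intro v hv hvc; simp at hv; exact absurd hv hvc
    · intro v hv _; exact g3 v hv
  | step z l w h hzw hwC hwl ih =>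
    obtain ⟨z', l', c, g, h1, h2, h3, h4, h5, h6, h7, h8, h9, h10, h11⟩ := ih
    obtain ⟨rfl, rfl⟩ := List.cons.inj h1
    have hgw : g w = f w := h11 w hwC hwl
    obtain ⟨k1, k2, k3, k4, k5⟩ := switch_mt h7 h8 hzw
    rw [hgw] at k1 k2 k4
    have hff := hf.1.1.1
    have hfC : f w ∉ vertexSet C := by
      intro h
      have := hf.2 _ h
      rw [hff] at this
      exact hwC this
    have hfl : f w ∉ z :: l := by
      intro h
      by_cases hc : f w = c
      · exact hfC (by rw [hc]; exact h2)
      · have := h6 _ h hc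
        rw [hff] at this
        exact hwl this
    have hsw : ∀ v, v ≠ z → v ≠ w → v ≠ f w → switch g z w v = g v := by
      intro v v1 v2 v3
      exact switch_of_ne v1 v2 (by rw [hgw]; exact v3)
    refine ⟨f w, w :: z :: l, c, switch g z w, rfl, h2, ?_, ?_, ?_, ?_, k3, k4, ?_, ?_, ?_⟩
    · rw [List.nodup_cons, List.nodup_cons]
      refine ⟨?_, hwl, h3⟩
      rw [List.mem_cons, not_or]
      exact ⟨k1, hfl⟩
    · rw [List.getLast?_cons_cons, List.getLast?_cons_cons]; exact h4
    · intro v hv hvC
      rw [List.mem_cons, List.mem_cons] at hv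
      rcases hv with rfl | rfl | hv
      · exact absurd hvC hfC
      · exact absurd hvC hwC
      · exact h5 v hv hvC
    · intro v hv hvc
      rw [List.mem_cons, List.mem_cons] at hv
      rcases hv with rfl | rfl | hv
      · rw [hff]; simp
      · simp
      · exact List.mem_cons_of_mem _ (List.mem_cons_of_mem _ (h6 v hv hvc))
    · refine ⟨(hf.1.1.2 w k1).symm, k5, by rw [k5]; exact hzw.ne, ?_⟩
      apply h9.congr
      intro v hv
      apply hsw
      · rintro rfl; exact (List.nodup_cons.mp h3).1 hv
      · rintro rfl; exact hwl (List.mem_cons_of_mem _ hv)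
      · rintro rfl; exact hfl (List.mem_cons_of_mem _ hv)
    · intro v hv hvc
      rw [hsw]
      · exact h10 v hv hvc
      · rintro rfl; exact hvc (h5 v (by simp) hv)
      · rintro rfl; exact hwC hv
      · rintro rfl; exact hfC hv
    · intro v hv hvl
      rw [List.mem_cons, List.mem_cons, not_or, not_or] at hvl
      rw [hsw v (fun h => hvl.2.2 (by rw [h]; simp)) hvl.2.1 hvl.1]
      exact h11 v hv hvl.2.2

theorem AP.mem_reach {G : SimpleGraph V} {f : V → V} {C : Finset (Sym2 V)} (hC : IsOddCycle G C)
    (hf : Expo G C f) {L : List V} (h : AP G f C L) : ∀ v ∈ L, v ∈ reach G C := by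
  obtain ⟨z, l, c, g, rfl, h2, h3, h4, h5, h6, h7, h8, h9, h10, h11⟩ := h.flip hC hf
  intro v hv
  exact ⟨edgesF g, c, z :: l, (maxMt_iff h7.1).mp h7, blossom_of_near h7.1 hC h2 h10,
    stem_of_alt h7.1 h8 h9 h3 h4 h5, Or.inr hv⟩

theorem AP.isChain {G : SimpleGraph V} {f : V → V} {C : Finset (Sym2 V)} (hC : IsOddCycle G C)
    (hf : Expo G C f) {L : List V} (h : AP G f C L) : List.IsChain G.Adj L ∧ Odd L.length := by
  obtain ⟨z, l, c, g, rfl, h2, h3, h4, h5, h6, h7, h8, h9, h10, h11⟩ := h.flip hC hf
  refine ⟨h9.isChain h7.1, ?_⟩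
  rw [List.length_cons, Nat.odd_add_one, Nat.not_odd_iff_even]
  exact h9.even

theorem AP.position {G : SimpleGraph V} {f : V → V} {C : Finset (Sym2 V)}
    {L : List V} (h : AP G f C L) : ∀ x ∈ L, (∃ l, AP G f C (f x :: x :: l)) ∨
      ∃ A l, L = A ++ x :: l ∧ Even A.length ∧ AP G f C (x :: l) := by
  induction h with
  | base c hc =>
    intro x hx
    rw [List.mem_singleton] at hx
    subst hx
    exact Or.inr ⟨[], [], rfl, by simp, AP.base x hc⟩
  | step z l w h hzw hwC hwl ih =>
    intro x hx
    rw [List.mem_cons, List.mem_cons] at hx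
    rcases hx with rfl | rfl | hx
    · exact Or.inr ⟨[], w :: z :: l, rfl, by simp, AP.step z l w h hzw hwC hwl⟩
    · exact Or.inl ⟨z :: l, AP.step z l x h hzw hwC hwl⟩
    · rcases ih x hx with h' | ⟨A, l', h1, h2, h3⟩
      · exact Or.inl h'
      · refine Or.inr ⟨f w :: w :: A, l', by rw [h1]; simp, ?_, h3⟩
        rw [List.length_cons, List.length_cons, Nat.even_add_one, Nat.even_add_one, not_not]
        exact h2

/-- the even vertices -/
noncomputable def ZZ (G : SimpleGraph V) (f : V → V) (C : Finset (Sym2 V)) : Finset V :=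
  univ.filter fun v => ∃ l, AP G f C (v :: l)

/-- the odd vertices -/
noncomputable def YY (G : SimpleGraph V) (f : V → V) (C : Finset (Sym2 V)) : Finset V :=
  univ.filter fun w => ∃ l, AP G f C (f w :: w :: l)

theorem mem_ZZ {G : SimpleGraph V} {f : V → V} {C : Finset (Sym2 V)} {v : V} :
    v ∈ ZZ G f C ↔ ∃ l, AP G f C (v :: l) := by simp [ZZ]

theorem mem_YY {G : SimpleGraph V} {f : V → V} {C : Finset (Sym2 V)} {v : V} :
    v ∈ YY G f C ↔ ∃ l, AP G f C (f v :: v :: l) := by simp [YY]

theorem subset_ZZ {G : SimpleGraph V} {f : V → V} {C : Finset (Sym2 V)} {v : V}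
    (hv : v ∈ vertexSet C) : v ∈ ZZ G f C := mem_ZZ.mpr ⟨[], AP.base v hv⟩

theorem YY_notMem {G : SimpleGraph V} {f : V → V} {C : Finset (Sym2 V)} {w : V}
    (hw : w ∈ YY G f C) : w ∉ vertexSet C := by
  obtain ⟨l, h⟩ := mem_YY.mp hw
  generalize hL : f w :: w :: l = L at h
  cases h with
  | base c hc => simp at hL
  | step z l' w' h hzw hwC hwl =>
    obtain ⟨-, h2⟩ := List.cons.inj hL
    obtain ⟨rfl, -⟩ := List.cons.inj h2
    exact hwC

theorem ZZ_subset_reach {G : SimpleGraph V} {f : V → V} {C : Finset (Sym2 V)}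
    (hC : IsOddCycle G C) (hf : Expo G C f) {v : V} (hv : v ∈ ZZ G f C) : v ∈ reach G C := by
  obtain ⟨l, h⟩ := mem_ZZ.mp hv
  exact h.mem_reach hC hf v (by simp)

theorem YY_subset_reach {G : SimpleGraph V} {f : V → V} {C : Finset (Sym2 V)}
    (hC : IsOddCycle G C) (hf : Expo G C f) {v : V} (hv : v ∈ YY G f C) : v ∈ reach G C := by
  obtain ⟨l, h⟩ := mem_YY.mp hv
  exact h.mem_reach hC hf v (by simp)

theorem card_YY {G : SimpleGraph V} {f : V → V} {C : Finset (Sym2 V)}
    (hf : Expo G C f) : (ZZ G f C \ vertexSet C).card = (YY G f C).card := by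
  have hff := hf.1.1.1
  apply card_nbij' f f
  · intro v hv
    rw [Finset.mem_coe, mem_sdiff] at hv
    obtain ⟨l, h⟩ := mem_ZZ.mp hv.1
    generalize hL : v :: l = L at h
    cases h with
    | base c hc =>
      obtain ⟨rfl, -⟩ := List.cons.inj hL
      exact absurd hc hv.2
    | step z l' w' h hzw hwC hwl =>
      obtain ⟨rfl, h2⟩ := List.cons.inj hL
      rw [Finset.mem_coe, mem_YY, hff, hff]
      exact ⟨z :: l', AP.step z l' w' h hzw hwC hwl⟩
  · intro w hw
    rw [Finset.mem_coe] at hw
    have h1 := YY_notMem hw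
    rw [Finset.mem_coe, mem_sdiff]
    obtain ⟨l, h⟩ := mem_YY.mp hw
    refine ⟨mem_ZZ.mpr ⟨_, h⟩, ?_⟩
    intro h'
    have := hf.2 _ h'
    rw [hff] at this
    exact h1 this
  · intro v _; exact hff v
  · intro v _; exact hff v

theorem nbr_outer {G : SimpleGraph V} (hG : RDisjoint G) {f : V → V} {C : Finset (Sym2 V)}
    (hC : IsOddCycle G C) (hf : Expo G C f) {v w : V} (hv : v ∈ ZZ G f C)
    (hvC : v ∉ vertexSet C) (hvw : G.Adj v w) : w ∈ YY G f C := by
  obtain ⟨l, h⟩ := mem_ZZ.mp hv
  have hvr := h.mem_reach hC hf v (by simp)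
  -- an odd cycle through `v` is impossible
  have hno : ∀ D, IsOddCycle G D → v ∉ vertexSet D := by
    intro D hD hvD
    have := eq_of_mem_reach hG hC hD hvr (vertexSet_subset_reach hG hD hvD)
    rw [← this] at hvD
    exact hvC hvD
  obtain ⟨hch, hodd⟩ := h.isChain hC hf
  obtain ⟨z', l', c, g, h1, h2, h3, h4, h5, h6, -⟩ := h.flip hC hf
  clear h1
  by_cases hwl : w ∈ v :: l
  · rcases h.position w hwl with h' | ⟨A, l2, k1, k2, k3⟩
    · exact mem_YY.mpr h'
    · exfalso
      cases A with
      | nil =>
        have := (List.cons.inj k1).1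
        exact hvw.ne this
      | cons a A =>
        rw [k1] at hch h3
        obtain ⟨rfl, -⟩ := List.cons.inj k1
        rw [List.isChain_split] at hch
        obtain ⟨D, d1, d2⟩ := mk_cycle (G := G) (a := v) (l := A ++ [w])
          (h3.sublist (by simp)) (by
            rw [List.length_cons] at k2 ⊢
            rw [List.length_append, List.length_singleton, Nat.odd_add_one, Nat.not_odd_iff_even]
            exact k2) (by
            have e2 : v :: ((A ++ [w]) ++ [v]) = (v :: A) ++ w :: [v] := by simp
            rw [e2, List.isChain_split]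
            exact ⟨hch.1, by simp [hvw.symm]⟩)
        exact hno D d1 ((d2 v).mpr (by simp))
  · by_cases hwC : w ∈ vertexSet C
    · exfalso
      have hcw : c ≠ w := by
        rintro rfl
        exact hwl (List.mem_of_getLast? h4)
      obtain ⟨P, p1, p2, p3, p4⟩ := exists_evenPath hC h2 hwC hcw
      obtain ⟨B, hB⟩ : ∃ B, v :: l = B ++ [c] := by
        rw [List.getLast?_eq_some_iff] at h4
        exact h4
      have hnd : ((v :: l) ++ (P ++ [w])).Nodup := by
        rw [List.nodup_append]
        refine ⟨h3, (List.nodup_cons.mp p3).2, ?_⟩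
        intro a ha b hb
        rintro rfl
        have haC : a ∈ vertexSet C := by
          rw [List.mem_append, List.mem_singleton] at hb
          rcases hb with hb | rfl
          · exact p2 a hb
          · exact hwC
        have := h5 a ha haC
        subst this
        exact (List.nodup_cons.mp p3).1 hb
      obtain ⟨D, d1, d2⟩ := mk_cycle (G := G) (a := v) (l := l ++ (P ++ [w])) hnd (by
        have e : (v :: (l ++ (P ++ [w]))).length = (v :: l).length + (P.length + 1) := by
          simp; omega
        rw [e]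
        exact hodd.add_even (by rw [Nat.even_add_one, Nat.not_even_iff_odd]; exact p1)) (by
        have e1 : v :: ((l ++ (P ++ [w])) ++ [v]) = B ++ c :: (P ++ [w] ++ [v]) := by
          have : v :: ((l ++ (P ++ [w])) ++ [v]) = (v :: l) ++ ((P ++ [w]) ++ [v]) := by simp
          rw [this, hB]; simp
        have e2 : c :: (P ++ [w] ++ [v]) = (c :: P) ++ w :: [v] := by simp
        rw [e1, List.isChain_split, e2]
        rw [hB] at hch
        refine ⟨hch, ?_⟩
        rw [List.isChain_split]
        exact ⟨p4, by simp [hvw.symm]⟩)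
      exact hno D d1 ((d2 v).mpr (by simp))
    · exact mem_YY.mpr ⟨_, AP.step v l w h hvw hwC hwl⟩

theorem nbr_inner {G : SimpleGraph V} {f : V → V} {C : Finset (Sym2 V)}
    {v w : V} (hv : v ∈ vertexSet C) (hw : w ∉ vertexSet C) (hvw : G.Adj v w) :
    w ∈ YY G f C :=
  mem_YY.mpr ⟨_, AP.step v [] w (AP.base v hv) hvw hw (by simp [hvw.ne'])⟩

/-- A system of distinct neighbours on `Z` -/
theorem inj_nbr {G : SimpleGraph V} (hG : RDisjoint G) {f : V → V} {C : Finset (Sym2 V)}
    (hC : IsOddCycle G C) (hf : Expo G C f) {s : V → V} (hs : Function.Injective s)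
    (hadj : ∀ v ∈ ZZ G f C, G.Adj v (s v)) :
    (∀ v ∈ ZZ G f C \ vertexSet C, s v ∈ YY G f C) ∧
    (∀ y ∈ YY G f C, ∃ v ∈ ZZ G f C \ vertexSet C, s v = y) ∧
    (∀ v ∈ vertexSet C, s v ∈ vertexSet C) := by
  have h1 : ∀ v ∈ ZZ G f C \ vertexSet C, s v ∈ YY G f C := by
    intro v hv
    rw [mem_sdiff] at hv
    exact nbr_outer hG hC hf hv.1 hv.2 (hadj v hv.1)
  have h2 : (ZZ G f C \ vertexSet C).image s = YY G f C := by
    apply eq_of_subset_of_card_le
    · intro y hy
      rw [mem_image] at hy
      obtain ⟨v, hv, rfl⟩ := hy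
      exact h1 v hv
    · rw [card_image_of_injective _ hs, card_YY hf]
  have h3 : ∀ y ∈ YY G f C, ∃ v ∈ ZZ G f C \ vertexSet C, s v = y := by
    intro y hy
    rw [← h2, mem_image] at hy
    exact hy
  refine ⟨h1, h3, ?_⟩
  intro v hv
  by_contra hsv
  obtain ⟨v', hv', h4⟩ := h3 _ (nbr_inner (f := f) hv hsv (hadj v (subset_ZZ hv)))
  rw [mem_sdiff] at hv'
  rw [hs h4] at hv'
  exact hv'.2 hv

/-- every matching misses a vertex of `Z` -/
theorem exists_fixed {G : SimpleGraph V} (hG : RDisjoint G) {f : V → V} {C : Finset (Sym2 V)}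
    (hC : IsOddCycle G C) (hf : Expo G C f) {g : V → V} (hg : Mt G g) :
    ∃ v ∈ ZZ G f C, g v = v := by
  by_contra hcon
  push Not at hcon
  obtain ⟨-, -, h3⟩ := inj_nbr hG hC hf hg.inj (fun v hv => hg.2 v (hcon v hv))
  have := even_card_of_invol (vertexSet C) h3 (fun v _ => hg.1 v)
    (fun v hv => hcon v (subset_ZZ hv))
  rw [← Nat.not_odd_iff_even] at this
  exact this (odd_card_vertexSet hC)

/-- a matching missing only one vertex of `Z` matches `Y` into `Z` -/
theorem map_YY {G : SimpleGraph V} (hG : RDisjoint G) {f : V → V} {C : Finset (Sym2 V)}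
    (hC : IsOddCycle G C) (hf : Expo G C f) {g : V → V} (hg : Mt G g) {u : V}
    (hu : ∀ v ∈ ZZ G f C, g v = v → v = u) : ∀ y ∈ YY G f C, g y ∈ ZZ G f C := by
  let T : Finset V := (ZZ G f C).filter fun v => g v ∈ YY G f C
  have hT : (YY G f C).card ≤ T.card := by
    have hout : ∀ v ∈ ZZ G f C \ vertexSet C, v ≠ u → v ∈ T := by
      intro v hv hvu
      rw [mem_sdiff] at hv
      refine mem_filter.mpr ⟨hv.1, ?_⟩
      exact nbr_outer hG hC hf hv.1 hv.2 (hg.2 v (fun h => hvu (hu v hv.1 h)))
    by_cases huC : u ∈ vertexSet C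
    · rw [← card_YY hf]
      apply card_le_card
      intro v hv
      apply hout v hv
      rintro rfl
      exact (mem_sdiff.mp hv).2 huC
    · obtain ⟨v1, hv1, hv1'⟩ : ∃ v ∈ vertexSet C, g v ∉ vertexSet C := by
        by_contra hcon
        push Not at hcon
        have := even_card_of_invol (vertexSet C) hcon (fun v _ => hg.1 v)
          (fun v hv h => huC (by rw [← hu v (subset_ZZ hv) h]; exact hv))
        rw [← Nat.not_odd_iff_even] at this
        exact this (odd_card_vertexSet hC)
      have hv1T : v1 ∈ T := by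
        refine mem_filter.mpr ⟨subset_ZZ hv1, ?_⟩
        exact nbr_inner hv1 hv1' (hg.2 v1 (fun h => hv1' (by rw [h]; exact hv1)))
      have hsub : insert v1 ((ZZ G f C \ vertexSet C).erase u) ⊆ T := by
        intro v hv
        rw [mem_insert, mem_erase] at hv
        rcases hv with rfl | hv
        · exact hv1T
        · exact hout v hv.2 hv.1
      have h1 := card_le_card hsub
      rw [card_insert_of_notMem (by
        rw [mem_erase, mem_sdiff]; intro h; exact h.2.2 hv1)] at h1
      have h2 := pred_card_le_card_erase (s := ZZ G f C \ vertexSet C) (a := u)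
      rw [card_YY hf] at h2
      omega
  have himg : T.image g = YY G f C := by
    apply eq_of_subset_of_card_le
    · intro y hy
      rw [mem_image] at hy
      obtain ⟨v, hv, rfl⟩ := hy
      exact (mem_filter.mp hv).2
    · rw [card_image_of_injective _ hg.inj]; exact hT
  intro y hy
  rw [← himg, mem_image] at hy
  obtain ⟨v, hv, rfl⟩ := hy
  rw [hg.1]
  exact (mem_filter.mp hv).1

/-- stems stay inside -/
theorem stem_inside {G : SimpleGraph V} (hG : RDisjoint G) {f : V → V} {C : Finset (Sym2 V)}
    (hC : IsOddCycle G C) (hf : Expo G C f) {g : V → V} {b : V}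
    (hY : ∀ y ∈ YY G f C, g y ∈ ZZ G f C) : ∀ {z : V} {l : List V}, Alt G g z l →
      (z :: l).Nodup → (z :: l).getLast? = some b → (∀ v ∈ z :: l, v ∈ vertexSet C → v = b) →
      z ∈ ZZ G f C → ∀ v ∈ z :: l, v ∈ ZZ G f C ∨ v ∈ YY G f C
  | z, [], _, _, _, _, hz, v, hv => by
    rw [List.mem_singleton] at hv
    rw [hv]; exact Or.inl hz
  | z, [_], h, _, _, _, _, _, _ => by exact h.elim
  | z, x :: y :: l, h, hnd, hlast, hCb, hz, v, hv => by
    obtain ⟨h1, h2, h3, h4⟩ := h
    subst h2
    rw [List.getLast?_cons_cons] at hlast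
    have hzb : z ≠ b := by
      rintro rfl
      exact (List.nodup_cons.mp hnd).1 (List.mem_of_getLast? hlast)
    have hzC : z ∉ vertexSet C := fun h => hzb (hCb z (by simp) h)
    have hx : x ∈ YY G f C := nbr_outer hG hC hf hz hzC h1
    have hy : g x ∈ ZZ G f C := hY x hx
    rw [List.getLast?_cons_cons] at hlast
    have ih := stem_inside hG hC hf hY h4 (List.nodup_cons.mp (List.nodup_cons.mp hnd).2).2 hlast
      (fun v hv => hCb v (List.mem_cons_of_mem _ (List.mem_cons_of_mem _ hv))) hy
    rw [List.mem_cons, List.mem_cons] at hv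
    rcases hv with rfl | rfl | hv
    · exact Or.inl hz
    · exact Or.inr hx
    · exact ih v hv

end Part4

section Part5

variable {V : Type*} [Fintype V]

/-- The set of the odd cycles of `G`. -/
noncomputable def oddCycles (G : SimpleGraph V) : Finset (Finset (Sym2 V)) :=
  univ.filter fun C => IsOddCycle G C

/-- The vertices outside all reach sets. -/
def restSet (G : SimpleGraph V) : Set V := {v | ∀ C, IsOddCycle G C → v ∉ reach G C}

/-- the vertices on no odd cycle -/
def Off (G : SimpleGraph V) (v : V) : Prop := ∀ C, IsOddCycle G C → v ∉ vertexSet C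

/-- The edges between vertices off the odd cycles. -/
def offGraph (G : SimpleGraph V) : SimpleGraph V where
  Adj v w := G.Adj v w ∧ Off G v ∧ Off G w
  symm := ⟨fun _ _ h => ⟨h.1.symm, h.2.2, h.2.1⟩⟩
  loopless := ⟨fun _ h => h.1.ne rfl⟩

theorem offGraph_cycle {G : SimpleGraph V} {C : Finset (Sym2 V)} (h : IsOddCycle (offGraph G) C) :
    False := by
  have hG : IsOddCycle G C := by
    obtain ⟨a, l, h1, h2, h3, h4, h5⟩ := h
    exact ⟨a, l, h1, h2, h3, h4.imp fun _ _ h => h.1, h5⟩
  have hpos : 0 < (vertexSet C).card := (odd_card_vertexSet hG).pos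
  obtain ⟨v, hv⟩ := card_pos.mp hpos
  obtain ⟨e, he, hve⟩ := mem_vertexSet.mp hv
  obtain ⟨a, l, h1, h2, h3, h4, h5⟩ := h
  rw [h5, List.mem_toFinset] at he
  have := chain_of_edge h4 he
  obtain ⟨w, rfl⟩ := hve
  exact this.2.1 C hG hv

theorem offGraph_colorable (G : SimpleGraph V) : (offGraph G).Colorable 2 := by
  rw [SimpleGraph.two_colorable_iff_forall_loop_even]
  intro u w
  by_contra hodd
  rw [Nat.not_even_iff_odd] at hodd
  have hlen : w.support.length = w.length + 1 := w.length_support
  have hch := w.isChain_adj_support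
  rcases hw : w.support with _ | ⟨a, l⟩
  · rw [hw] at hlen; simp at hlen
  · have ha : a = u := by
      have := w.head_support
      simpa [hw] using this
    subst ha
    have hl : l ≠ [] := by
      rintro rfl
      rw [hw, List.length_singleton] at hlen
      have h0 : w.length = 0 := by omega
      rw [h0] at hodd
      simp at hodd
    obtain ⟨B, z, hB⟩ := List.eq_nil_or_concat l |>.resolve_left hl
    have hz : z = a := by
      have h1 : w.support.getLast? = some a := by
        rw [List.getLast?_eq_some_getLast (by rw [hw]; simp), w.getLast_support]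
      rw [hw, hB] at h1
      rw [List.concat_eq_append, ← List.cons_append, List.getLast?_append] at h1
      simpa using h1
    subst hz
    rw [hw, hB, List.concat_eq_append] at hch
    have h2 : (z :: B).length = w.length := by
      rw [hw, hB] at hlen
      simp at hlen ⊢
      omega
    obtain ⟨C, hC, -⟩ := odd_closed w.length z B h2 hodd hch
    exact offGraph_cycle hC

theorem unique_cycle {G : SimpleGraph V} (hG : RDisjoint G) {C D : Finset (Sym2 V)}
    (hC : IsOddCycle G C) (hD : IsOddCycle G D) {v : V} (h1 : v ∈ vertexSet C)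
    (h2 : v ∈ vertexSet D) : C = D :=
  eq_of_mem_reach hG hC hD (vertexSet_subset_reach hG hC h1) (vertexSet_subset_reach hG hD h2)

theorem perm_vertexSet {G : SimpleGraph V} (hG : RDisjoint G) {σ : V → V}
    (hs : Function.Injective σ) (hσ : ∀ v, G.Adj v (σ v)) {C : Finset (Sym2 V)}
    (hC : IsOddCycle G C) : ∀ v ∈ vertexSet C, σ v ∈ vertexSet C := by
  obtain ⟨f, hf⟩ := expo_exists hG hC
  exact (inj_nbr hG hC hf hs (fun v _ => hσ v)).2.2

theorem exists_mt {G : SimpleGraph V} (hG : RDisjoint G) (σ : Equiv.Perm V)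
    (hσ : ∀ v, G.Adj v (σ v)) : ∃ h, Mt G h ∧ (fixedPts h).card ≤ (oddCycles G).card := by
  have hσ' : ∀ v, G.Adj v (σ.symm v) := by
    intro v
    have := hσ (σ.symm v)
    rw [Equiv.apply_symm_apply] at this
    exact this.symm
  -- near-perfect matchings of the odd cycles
  have hp : ∀ C : Finset (Sym2 V), ∃ (c : V) (p : V → V), IsOddCycle G C →
      (c ∈ vertexSet C ∧ p c = c ∧ ∀ v ∈ vertexSet C, p (p v) = v ∧ p v ∈ vertexSet C ∧
        (v ≠ c → p v ≠ v ∧ G.Adj v (p v))) := by
    intro C
    by_cases hC : IsOddCycle G C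
    · have hpos : 0 < (vertexSet C).card := (odd_card_vertexSet hC).pos
      obtain ⟨c, hc⟩ := card_pos.mp hpos
      obtain ⟨p, p1, p2, p3⟩ := exists_near hC hc
      exact ⟨c, p, fun _ => ⟨hc, p1, fun v hv => ⟨(p3 v hv).1, (p3 v hv).2.1, fun hvc =>
        ⟨((p3 v hv).2.2 hvc).1, ((p3 v hv).2.2 hvc).2.2.2⟩⟩⟩⟩
    · obtain ⟨C0, a, l, -⟩ := hG.1
      exact ⟨a, id, fun h => absurd h hC⟩
  choose c p hcp using hp
  obtain ⟨col⟩ := offGraph_colorable G
  let h : V → V := fun v => if hv : ∃ C, IsOddCycle G C ∧ v ∈ vertexSet C then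
    p (Classical.choose hv) v else if col v = 0 then σ v else σ.symm v
  have h1 : ∀ C, IsOddCycle G C → ∀ v ∈ vertexSet C, h v = p C v := by
    intro C hC v hv
    have hex : ∃ C, IsOddCycle G C ∧ v ∈ vertexSet C := ⟨C, hC, hv⟩
    have hs := Classical.choose_spec hex
    have : h v = p (Classical.choose hex) v := by simp only [h]; rw [dif_pos hex]
    rw [this, unique_cycle hG hs.1 hC hs.2 hv]
  have h2 : ∀ v, Off G v → h v = if col v = 0 then σ v else σ.symm v := by
    intro v hv
    simp only [h]
    rw [dif_neg]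
    rintro ⟨C, hC, hvC⟩
    exact hv C hC hvC
  have o1 : ∀ v, Off G v → Off G (σ v) := by
    intro v hv C hC h'
    apply hv C hC
    have := perm_vertexSet hG σ.symm.injective hσ' hC _ h'
    rwa [Equiv.symm_apply_apply] at this
  have o2 : ∀ v, Off G v → Off G (σ.symm v) := by
    intro v hv C hC h'
    apply hv C hC
    have := perm_vertexSet hG σ.injective hσ hC _ h'
    rwa [Equiv.apply_symm_apply] at this
  have c1 : ∀ v w, Off G v → Off G w → G.Adj v w → (col v = 0 ↔ ¬ col w = 0) := by
    intro v w hv hw hvw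
    have : col v ≠ col w := col.valid (show (offGraph G).Adj v w from ⟨hvw, hv, hw⟩)
    omega
  have hcase : ∀ v, (∃ C, IsOddCycle G C ∧ v ∈ vertexSet C) ∨ Off G v := by
    intro v
    by_cases hv : ∃ C, IsOddCycle G C ∧ v ∈ vertexSet C
    · exact Or.inl hv
    · right
      intro C hC h'
      exact hv ⟨C, hC, h'⟩
  have hmt : Mt G h := by
    constructor
    · intro v
      rcases hcase v with ⟨C, hC, hv⟩ | hv
      · have := (hcp C hC).2.2 v hv
        rw [h1 C hC v hv, h1 C hC _ this.2.1, this.1]
      · rw [h2 v hv]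
        by_cases hc : col v = 0
        · rw [if_pos hc, h2 _ (o1 v hv), if_neg, Equiv.symm_apply_apply]
          exact (c1 v (σ v) hv (o1 v hv) (hσ v)).mp hc
        · rw [if_neg hc, h2 _ (o2 v hv), if_pos, Equiv.apply_symm_apply]
          by_contra hcon
          exact hc ((c1 v (σ.symm v) hv (o2 v hv) (hσ' v)).mpr hcon)
    · intro v hne
      rcases hcase v with ⟨C, hC, hv⟩ | hv
      · rw [h1 C hC v hv] at hne ⊢
        obtain ⟨k1, k2, k3⟩ := hcp C hC
        apply ((k3 v hv).2.2 _).2
        rintro rfl
        exact hne k2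
      · rw [h2 v hv]
        by_cases hc : col v = 0
        · rw [if_pos hc]; exact hσ v
        · rw [if_neg hc]; exact hσ' v
  refine ⟨h, hmt, ?_⟩
  have hsub : fixedPts h ⊆ (oddCycles G).image c := by
    intro v hv
    rw [mem_fixedPts] at hv
    rcases hcase v with ⟨C, hC, hvC⟩ | hvO
    · rw [mem_image]
      refine ⟨C, by simp [oddCycles, hC], ?_⟩
      by_contra hne
      obtain ⟨k1, k2, k3⟩ := hcp C hC
      rw [h1 C hC v hvC] at hv
      exact ((k3 v hvC).2.2 (Ne.symm hne)).1 hv
    · exfalso
      rw [h2 v hvO] at hv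
      by_cases hc : col v = 0
      · rw [if_pos hc] at hv
        exact (hσ v).ne hv.symm
      · rw [if_neg hc] at hv
        exact (hσ' v).ne hv.symm
  exact (card_le_card hsub).trans card_image_le

theorem fixed_spec {G : SimpleGraph V} (hG : RDisjoint G) (σ : Equiv.Perm V)
    (hσ : ∀ v, G.Adj v (σ v)) {F : Finset (Sym2 V) → V → V}
    (hF : ∀ C, IsOddCycle G C → Expo G C (F C)) {g : V → V} (hg : MaxMt G g) :
    (∀ u, g u = u → ∃ D, IsOddCycle G D ∧ u ∈ ZZ G (F D) D) ∧
      ∀ C, IsOddCycle G C → ∀ u ∈ ZZ G (F C) C, ∀ v ∈ ZZ G (F C) C, g u = u → g v = v → v = u := by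
  obtain ⟨h, h1, h2⟩ := exists_mt hG σ hσ
  have h3 : (fixedPts g).card ≤ (oddCycles G).card := (hg.2 h h1).trans h2
  have h4 : ∀ C, ∃ v, IsOddCycle G C → v ∈ ZZ G (F C) C ∧ g v = v := by
    intro C
    by_cases hC : IsOddCycle G C
    · obtain ⟨v, hv⟩ := exists_fixed hG hC (hF C hC) hg.1
      exact ⟨v, fun _ => hv⟩
    · obtain ⟨C0, a, l, -⟩ := hG.1
      exact ⟨a, fun h => absurd h hC⟩
  choose φ hφ using h4
  have huniq : ∀ C D, IsOddCycle G C → IsOddCycle G D → ∀ v, v ∈ ZZ G (F C) C →
      v ∈ ZZ G (F D) D → C = D := fun C D hC hD v h5 h6 =>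
    eq_of_mem_reach hG hC hD (ZZ_subset_reach hC (hF C hC) h5) (ZZ_subset_reach hD (hF D hD) h6)
  have hinj : Set.InjOn φ (oddCycles G : Set (Finset (Sym2 V))) := by
    intro C hC D hD hCD
    simp only [oddCycles, coe_filter, mem_univ, true_and, Set.mem_ofPred_eq] at hC hD
    apply huniq C D hC hD (φ C) (hφ C hC).1
    rw [hCD]; exact (hφ D hD).1
  have himg : (oddCycles G).image φ = fixedPts g := by
    apply eq_of_subset_of_card_le
    · intro v hv
      rw [mem_image] at hv
      obtain ⟨C, hC, rfl⟩ := hv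
      simp only [oddCycles, mem_filter, mem_univ, true_and] at hC
      rw [mem_fixedPts]
      exact (hφ C hC).2
    · rw [card_image_of_injOn hinj]; exact h3
  have hall : ∀ u, g u = u → ∃ D, IsOddCycle G D ∧ u = φ D := by
    intro u hu
    rw [← mem_fixedPts, ← himg, mem_image] at hu
    obtain ⟨D, hD, rfl⟩ := hu
    simp only [oddCycles, mem_filter, mem_univ, true_and] at hD
    exact ⟨D, hD, rfl⟩
  constructor
  · intro u hu
    obtain ⟨D, hD, rfl⟩ := hall u hu
    exact ⟨D, hD, (hφ D hD).1⟩
  · intro C hC u hu v hv hgu hgv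
    obtain ⟨D, hD, rfl⟩ := hall u hgu
    obtain ⟨D', hD', rfl⟩ := hall v hgv
    rw [huniq C D hC hD _ hu (hφ D hD).1] at *
    rw [huniq D D' hD hD' _ hv (hφ D' hD').1]

theorem reach_eq {G : SimpleGraph V} (hG : RDisjoint G) (σ : Equiv.Perm V)
    (hσ : ∀ v, G.Adj v (σ v)) {F : Finset (Sym2 V) → V → V}
    (hF : ∀ C, IsOddCycle G C → Expo G C (F C)) {C : Finset (Sym2 V)} (hC : IsOddCycle G C)
    (v : V) : v ∈ reach G C ↔ v ∈ ZZ G (F C) C ∨ v ∈ YY G (F C) C := by
  constructor
  · rintro ⟨M, b, S, hM, hB, hS, hv⟩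
    rcases hv with hv | hv
    · exact Or.inl (subset_ZZ hv)
    · have hS' := hS
      obtain ⟨s1, s2, s3, s4, ⟨u, s5, s6⟩, s7, s8⟩ := hS
      obtain ⟨g, hg, rfl⟩ := exists_partner hM.1
      have hmax : MaxMt G g := (maxMt_iff hg).mpr hM
      obtain ⟨q1, q2⟩ := fixed_spec hG σ hσ hF hmax
      cases S with
      | nil => simp at s5
      | cons a l =>
        simp only [List.head?_cons, Option.some.injEq] at s5
        subst s5
        have hga : g a = a := by
          by_contra h
          exact s6 s(a, g a) ((mem_edgesF hg.1).mpr ⟨Ne.symm h, rfl⟩) (by simp)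
        rw [length_edgeList] at s3
        have halt : Alt G g a l := by
          apply alt_of_chain hg s2 s3 s4
          intro e he
          cases l with
          | nil => simp at he
          | cons x l =>
            simp at he
            intro h
            exact s6 e h (by rw [← he]; simp)
        have haC : a ∈ reach G C := ⟨edgesF g, b, a :: l, hM, hB, hS', Or.inr (by simp)⟩
        obtain ⟨D, hD, haD⟩ := q1 a hga
        have hCD : C = D := eq_of_mem_reach hG hC hD haC (ZZ_subset_reach hD (hF D hD) haD)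
        subst hCD
        have hY := map_YY hG hC (hF C hC) hg (u := a) (fun v hv hgv => q2 C hC a haD v hv hga hgv)
        exact stem_inside hG hC (hF C hC) hY halt s1 s7 s8 haD v hv
  · rintro (hv | hv)
    · exact ZZ_subset_reach hC (hF C hC) hv
    · exact YY_subset_reach hC (hF C hC) hv

theorem perm_reach {G : SimpleGraph V} (hG : RDisjoint G) (σ : Equiv.Perm V)
    (hσ : ∀ v, G.Adj v (σ v)) {C : Finset (Sym2 V)} (hC : IsOddCycle G C) (v : V) :
    σ v ∈ reach G C ↔ v ∈ reach G C := by
  have hF : ∀ C, ∃ f, IsOddCycle G C → Expo G C f := by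
    intro C
    by_cases hC : IsOddCycle G C
    · obtain ⟨f, hf⟩ := expo_exists hG hC
      exact ⟨f, fun _ => hf⟩
    · exact ⟨id, fun h => absurd h hC⟩
  choose F hF using hF
  have hσ' : ∀ v, G.Adj v (σ.symm v) := by
    intro v
    have := hσ (σ.symm v)
    rw [Equiv.apply_symm_apply] at this
    exact this.symm
  obtain ⟨a1, a2, a3⟩ := inj_nbr hG hC (hF C hC) σ.injective (fun v _ => hσ v)
  obtain ⟨b1, b2, b3⟩ := inj_nbr hG hC (hF C hC) σ.symm.injective (fun v _ => hσ' v)
  rw [reach_eq hG σ hσ hF hC, reach_eq hG σ hσ hF hC]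
  constructor
  · rintro (h | h)
    · by_cases hc : σ v ∈ vertexSet C
      · have := b3 _ hc
        rw [Equiv.symm_apply_apply] at this
        exact Or.inl (subset_ZZ this)
      · have := b1 _ (mem_sdiff.mpr ⟨h, hc⟩)
        rw [Equiv.symm_apply_apply] at this
        exact Or.inr this
    · obtain ⟨w, hw, h'⟩ := a2 _ h
      rw [← σ.injective h']
      exact Or.inl (mem_sdiff.mp hw).1
  · rintro (h | h)
    · by_cases hc : v ∈ vertexSet C
      · exact Or.inl (subset_ZZ (a3 v hc))
      · exact Or.inr (a1 v (mem_sdiff.mpr ⟨h, hc⟩))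
    · obtain ⟨w, hw, h'⟩ := b2 _ h
      rw [Equiv.symm_apply_eq] at h'
      rw [← h']
      exact Or.inl (mem_sdiff.mp hw).1

end Part5

section Part6

variable {V : Type*} [Fintype V]

/-- the block of a vertex -/
noncomputable def block (G : SimpleGraph V) (v : V) : Option {C // IsOddCycle G C} :=
  if hv : ∃ C, IsOddCycle G C ∧ v ∈ reach G C then
    some ⟨Classical.choose hv, (Classical.choose_spec hv).1⟩ else none

theorem block_some {G : SimpleGraph V} (hG : RDisjoint G) (v : V) (C : {C // IsOddCycle G C}) :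
    block G v = some C ↔ v ∈ reach G C.1 := by
  unfold block
  split_ifs with h
  · have hs := Classical.choose_spec h
    constructor
    · intro h'
      rw [Option.some.injEq] at h'
      rw [← h']
      exact hs.2
    · intro h'
      rw [Option.some.injEq]
      apply Subtype.ext
      exact eq_of_mem_reach hG hs.1 C.2 hs.2 h'
  · constructor
    · intro h'; exact absurd h' (by simp)
    · intro h'; exact absurd ⟨C.1, C.2, h'⟩ h

theorem block_none {G : SimpleGraph V} (v : V) : block G v = none ↔ v ∈ restSet G := by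
  unfold block restSet
  split_ifs with h
  · constructor
    · intro h'; exact absurd h' (by simp)
    · intro h'
      obtain ⟨C, hC, hv⟩ := h
      exact absurd hv (h' C hC)
  · simp only [true_iff, Set.mem_ofPred_eq]
    intro C hC hv
    exact h ⟨C, hC, hv⟩

theorem block_perm {G : SimpleGraph V} (hG : RDisjoint G) (σ : Equiv.Perm V)
    (hσ : ∀ v, G.Adj v (σ v)) (v : V) : block G (σ v) = block G v := by
  rcases h : block G v with _ | C
  · rcases h' : block G (σ v) with _ | C'
    · rfl
    · rw [block_some hG, perm_reach hG σ hσ C'.2, ← block_some hG, h] at h'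
      exact absurd h' (by simp)
  · rw [block_some hG] at h ⊢
    rw [perm_reach hG σ hσ C.2]
    exact h

/-- **The determinant formula.** The determinant of the adjacency matrix of an `R`-disjoint graph
is the product of the determinants over the parts of its flower decomposition. -/
theorem result {V : Type*} [Fintype V] (G : SimpleGraph V) (hG : RDisjoint G) :
    (G.adjMatrix ℝ).det = ((G.induce (restSet G)).adjMatrix ℝ).det *
      ∏ C ∈ oddCycles G, ((G.induce (reach G C)).adjMatrix ℝ).det := by
  obtain ⟨A', hA'⟩ : ∃ A' : Matrix V V ℝ, ∀ v w, A' v w =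
      if block G v = block G w then G.adjMatrix ℝ v w else 0 :=
    ⟨Matrix.of fun v w => if block G v = block G w then G.adjMatrix ℝ v w else 0, fun _ _ => rfl⟩
  have h1 : (G.adjMatrix ℝ).det = A'.det := by
    rw [Matrix.det_apply, Matrix.det_apply]
    apply Finset.sum_congr rfl
    intro σ _
    congr 1
    by_cases h : ∀ v, G.Adj v (σ v)
    · apply Finset.prod_congr rfl
      intro v _
      rw [hA', if_pos (block_perm hG σ h v)]
    · push Not at h
      obtain ⟨v, hv⟩ := h
      have e1 : G.adjMatrix ℝ (σ v) v = 0 := by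
        rw [SimpleGraph.adjMatrix_apply, if_neg]
        intro h; exact hv h.symm
      have e2 : A' (σ v) v = 0 := by rw [hA', e1, ite_self]
      have e3 : ∏ i, G.adjMatrix ℝ (σ i) i = 0 := Finset.prod_eq_zero (mem_univ v) e1
      have e4 : ∏ i, A' (σ i) i = 0 := Finset.prod_eq_zero (mem_univ v) e2
      rw [e3, e4]
  let e := Fintype.equivFin (Option {C // IsOddCycle G C})
  have h2 : A'.BlockTriangular (fun v => e (block G v)) := by
    intro v w hvw
    rw [hA', if_neg]
    intro h
    simp only [h] at hvw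
    exact lt_irrefl _ hvw
  have h3 : ∀ (k : Option {C // IsOddCycle G C}) (S : Set V) (_ : ∀ v, block G v = k ↔ v ∈ S),
      (A'.toSquareBlock (fun v => e (block G v)) (e k)).det =
        ((G.induce S).adjMatrix ℝ).det := by
    intro k S hS
    have hS' : ∀ v, e (block G v) = e k ↔ v ∈ S := fun v => by
      rw [e.apply_eq_iff_eq]; exact hS v
    let e' : {v // e (block G v) = e k} ≃ S := Equiv.subtypeEquivRight hS'
    rw [← Matrix.det_submatrix_equiv_self e']
    congr 1
    ext i j
    rw [Matrix.submatrix_apply, SimpleGraph.adjMatrix_apply]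
    have hi : block G i.1 = k := e.injective i.2
    have hj : block G j.1 = k := e.injective j.2
    change A' i.1 j.1 = _
    rw [hA', if_pos (by rw [hi, hj]), SimpleGraph.adjMatrix_apply]
    rfl
  rw [h1, h2.det_fintype, ← e.prod_comp, Fintype.prod_option]
  congr 1
  · convert h3 none (restSet G) (fun v => block_none v)
  · have h4 : ∏ C ∈ oddCycles G, ((G.induce (reach G C)).adjMatrix ℝ).det =
        ∏ C : {C // IsOddCycle G C}, ((G.induce (reach G C.1)).adjMatrix ℝ).det := by
      apply Finset.prod_subtype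
      intro C
      simp [oddCycles]
    rw [h4]
    apply Finset.prod_congr rfl
    intro C _
    convert h3 (some C) (reach G C.1) (fun v => block_some hG v C)

end Part6

end Pool.Agent.Results.MP_079569_co.FlowerDet
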